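import Pool.Agent.H25.MZ.Targets
import Pool.Agent.H25.HK.Final

/-!
# Equal densities: module AA2 (Artin `L`-functions with their coefficients at primes)
-/

set_option autoImplicit false

open NumberField NumberField.InfinitePlace Complex Filter Topology

namespace Pool.Agent.H25.MZ

open Pool.Agent.H25.DL Pool.Agent.H25.HK Pool.Agent.H11.HK Pool.Agent.H48.DL

/-- completely multiplicative functions with given values at primes -/
def T_AH2 : Prop :=
  ∀ α : Nat.Primes → ℂ, (∀ p, ‖α p‖ ≤ 1) → ∃ h : ℕ → ℂ, h 0 = 0 ∧ h 1 = 1 ∧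
    (∀ a b, h (a * b) = h a * h b) ∧ (∀ a, ‖h a‖ ≤ 1) ∧ (∀ p : Nat.Primes, h p = α p) ∧
    ∀ s : ℂ, 1 < s.re →
      HasProd (fun p : Nat.Primes => (1 - α p * ((p : ℕ) : ℂ) ^ (-s))⁻¹)
        (∑' m : ℕ, h m * (m : ℂ) ^ (-s))

/-- the identity `Λ^N = ∏ ζ_K^a` for `Re s > 1`, with the coefficients at primes -/
def T_AE2 : Prop :=
  ∀ (R : ArtinRep), Rat R → ∃ (N : ℕ) (s : Finset (Subgroup (R.K ≃ₐ[ℚ] R.K)))
    (a : Subgroup (R.K ≃ₐ[ℚ] R.K) → ℤ) (h : Fin R.dim → ℕ → ℂ), 1 ≤ N ∧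
    (∀ g, (N : ℂ) * LinearMap.trace ℂ R.V (R.rho g) = ∑ H ∈ s, (a H : ℂ) * (pc H g : ℂ)) ∧
    (∀ j, h j 0 = 0) ∧ (∀ j, h j 1 = 1) ∧ (∀ j a b, h j (a * b) = h j a * h j b) ∧
    (∀ j a, ‖h j a‖ ≤ 1) ∧
    (∀ p : Nat.Primes, ∑ j, h j p = LinearMap.trace ℂ R.V (R.fr p)) ∧
    ∀ Λ : ℂ → ℂ, IsArtin R Λ → ∀ z : ℂ, 1 < z.re →
      Λ z = ∏ j, ∑' m : ℕ, h j m * (m : ℂ) ^ (-z) ∧
      (∀ H, dedekindZeta (FF R H) z ≠ 0) ∧
      Λ z ^ N = ∏ H ∈ s, dedekindZeta (FF R H) z ^ (a H)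

/-- an Artin `L`-function with rational character as an `LF`, with the coefficients at primes -/
def T_AA3 : Prop :=
  ∀ (R : ArtinRep) (Λ : ℂ → ℂ), Rat R → IsArtin R Λ → ∃ L : LF, L.n = R.dim ∧
    (∀ p : Nat.Primes, ∑ j, L.h j p = LinearMap.trace ℂ R.V (R.fr p)) ∧
    ∀ z : ℂ, 0 < z.im → analyticOrderAt L.den z ≠ ⊤ ∧ analyticOrderAt L.num z ≠ ⊤ ∧
      meromorphicOrderAt Λ z + meromorphicOrderAt L.den z = meromorphicOrderAt L.num z

theorem ah2 : T_AH2 := by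
  classical
  intro α hα
  set a : ℕ → ℂ := fun p => if h : p.Prime then α ⟨p, h⟩ else 0 with ha
  have ha1 : ∀ p, ‖a p‖ ≤ 1 := by
    intro p
    rw [ha]
    dsimp only
    split_ifs with h
    · exact hα _
    · simp
  refine ⟨hf a, hf_zero a, hf_one a, hf_mul a, hf_le a ha1, fun p => ?_, fun s hs => ?_⟩
  · rw [hf_prime a p.2]
    simp only [ha, dif_pos p.2]
    rfl
  have key := EulerProduct.eulerProduct_completely_multiplicative_hasProd
    (summable_hom a ha1 s hs)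
  have h2 : (fun p : Nat.Primes => (1 - α p * ((p : ℕ) : ℂ) ^ (-s))⁻¹) =
      fun p : Nat.Primes => (1 - hom a s p)⁻¹ := by
    funext p
    change _ = (1 - hf a p * ((p : ℕ) : ℂ) ^ (-s))⁻¹
    rw [hf_prime a p.2]
    simp only [ha, dif_pos p.2]
    rfl
  rw [h2]
  exact key

theorem ae2 (hEP : T_EP) (hPE : T_PE) (hTR : HK.T_TR) (hPW : T_PW) (hAI : T_AI) (hLP : T_LP)
    (hAL : T_AL) (hAH : T_AH2) : T_AE2 := by
  classical
  intro R hR
  obtain ⟨N, s, a, hN, hAI1⟩ := hAI (R.K ≃ₐ[ℚ] R.K) R.V R.rho hR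
  choose α hα1 hα2 using fun p => hAL R p
  choose h hz ho hm hle hval hprod using fun j : Fin R.dim => hAH (fun p => α p j) (fun p => hα1 p j)
  choose k kz ko km kle kser kpow using fun H : Subgroup (R.K ≃ₐ[ℚ] R.K) => hEP (FF R H)
  refine ⟨N, s, a, h, hN, hAI1, hz, ho, hm, hle, ?_, ?_⟩
  · intro p
    have e1 : LinearMap.trace ℂ R.V (R.fr p ^ 1) = ∑ j, α p j ^ 1 :=
      hPW R.V (R.fr p) (α p) (hα2 p) 1 le_rfl
    simp only [pow_one] at e1
    rw [e1]
    exact Finset.sum_congr rfl fun j _ => hval j p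
  intro Λ hΛ z hz1
  -- the value of Λ
  have hL1 : HasProd (fun p : Nat.Primes => ∏ j, (1 - α p j * ((p : ℕ) : ℂ) ^ (-z))⁻¹)
      (∏ j, ∑' m : ℕ, h j m * (m : ℂ) ^ (-z)) := hasProd_prod fun j _ => hprod j z hz1
  have hL2 : (fun p : Nat.Primes => ∏ j, (1 - α p j * ((p : ℕ) : ℂ) ^ (-z))⁻¹) =
      fun p => R.euler p z := by
    funext p
    unfold DL.ArtinRep.euler
    rw [hα2, Finset.prod_inv_distrib]
  have hΛz : Λ z = ∏ j, ∑' m : ℕ, h j m * (m : ℂ) ^ (-z) := by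
    rw [hL2] at hL1
    exact (hΛ.2 z hz1).unique hL1
  have hΛne : Λ z ≠ 0 := by
    rw [hΛz]
    exact Finset.prod_ne_zero_iff.mpr fun j _ => ser_ne (h j) (hz j) (ho j) (hm j) (hle j) hz1
  have hζne : ∀ H, dedekindZeta (FF R H) z ≠ 0 := by
    intro H
    rw [kser H z hz1]
    exact Finset.prod_ne_zero_iff.mpr fun j _ =>
      ser_ne (k H j) (kz H j) (ko H j) (km H j) (kle H j) hz1
  refine ⟨hΛz, hζne, ?_⟩
  have hζ1 : ∀ H, HasProd (fun p : Nat.Primes =>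
      ∏ j, (1 - k H j p * ((p : ℕ) : ℂ) ^ (-z))⁻¹) (dedekindZeta (FF R H) z) := by
    intro H
    rw [kser H z hz1]
    exact hasProd_prod fun j _ => ser_prod (k H j) (kz H j) (ko H j) (km H j) (kle H j) hz1
  -- power sums
  have hps : ∀ (p : Nat.Primes) (r : ℕ), 1 ≤ r →
      (N : ℂ) * ∑ j, α p j ^ r = ∑ H ∈ s, (a H : ℂ) * ∑ j, k H j p ^ r := by
    intro p r hr
    have e1 : LinearMap.trace ℂ R.V (R.fr p ^ r) = ∑ j, α p j ^ r :=
      hPW R.V (R.fr p) (α p) (hα2 p) r hr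
    rw [← e1, hTR R p r hr]
    have : Fintype (R.In p) := Fintype.ofFinite _
    rw [finsum_eq_sum_of_fintype, mul_left_comm, Finset.mul_sum]
    simp_rw [hAI1]
    rw [Finset.sum_comm, Finset.mul_sum]
    refine Finset.sum_congr rfl fun H _ => ?_
    rw [kpow H p r p.2 hr, hPE R H p r hr, finsum_eq_sum_of_fintype, Finset.mul_sum,
      Finset.mul_sum, Finset.mul_sum]
    refine Finset.sum_congr rfl fun g _ => ?_
    ring
  -- the family
  have hfac : ∀ p : Nat.Primes,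
      (∏ j, (1 - α p j * ((p : ℕ) : ℂ) ^ (-z))⁻¹) ^ (N : ℤ) *
        ∏ H ∈ s, (∏ j, (1 - k H j p * ((p : ℕ) : ℂ) ^ (-z))⁻¹) ^ (-(a H)) = 1 := by
    intro p
    have hX : ‖((p : ℕ) : ℂ) ^ (-z)‖ < 1 := by
      rw [norm_natCast_cpow_of_pos p.2.pos, neg_re]
      exact Real.rpow_lt_one_of_one_lt_of_neg (by exact_mod_cast p.2.one_lt) (by linarith)
    have := hLP (Option s) (fun i => i.elim R.dim fun H => Module.finrank ℚ (FF R H.1))
      (fun i => i.elim (N : ℤ) fun H => -(a H.1))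
      (fun i => match i with
        | none => α p
        | some H => fun j => k H.1 j p)
      (fun i j => by
        match i with
        | none => exact hα1 p j
        | some H => exact kle H.1 j p)
      (fun r hr => by
        rw [Fintype.sum_option]
        have h1 := hps p r hr
        rw [← Finset.sum_coe_sort s] at h1
        simp only [Option.elim_none, Option.elim_some, Int.cast_natCast, Int.cast_neg, neg_mul,
          Finset.sum_neg_distrib]
        rw [← sub_eq_add_neg, sub_eq_zero]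
        exact h1) _ hX
    rw [Fintype.prod_option] at this
    rw [← Finset.prod_coe_sort s]
    exact this
  have hne : ∀ H ∈ s, dedekindZeta (FF R H) z ≠ 0 := fun H _ => hζne H
  have hA : HasProd (fun p : Nat.Primes =>
      (∏ j, (1 - α p j * ((p : ℕ) : ℂ) ^ (-z))⁻¹) ^ (N : ℤ) *
        ∏ H ∈ s, (∏ j, (1 - k H j p * ((p : ℕ) : ℂ) ^ (-z))⁻¹) ^ (-(a H)))
      (Λ z ^ (N : ℤ) * ∏ H ∈ s, dedekindZeta (FF R H) z ^ (-(a H))) := by
    refine HasProd.mul ?_ (hasProd_prod fun H _ => hasProd_zpow (hζ1 H) (hζne H) _)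
    rw [← hΛz] at hL1
    exact hasProd_zpow hL1 hΛne _
  have hB : HasProd (fun _ : Nat.Primes => (1:ℂ)) 1 := hasProd_one
  simp_rw [hfac] at hA
  have hC := hA.unique hB
  simp_rw [zpow_neg] at hC
  rw [Finset.prod_inv_distrib] at hC
  have hD : ∏ H ∈ s, dedekindZeta (FF R H) z ^ (a H) ≠ 0 :=
    Finset.prod_ne_zero_iff.mpr fun H _ => zpow_ne_zero _ (hζne H)
  rw [zpow_natCast] at hC
  field_simp at hC
  exact hC


open scoped Classical in
/-- the Artin L-function as an LF with its coefficients at primes -/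
theorem aa3 (hLK : T_LK) (hAE : T_AE2) (hAC : T_AC) (hRT : T_RT) : T_AA3 := by
  intro R Λ hRat hArt
  obtain ⟨N, S, a, h, hN, hchar, h0, h1, hm, hle, htrh, hΛ'⟩ := hAE R hRat
  have hΛ := hΛ' Λ hArt
  choose Z L hZ hLn hLnum hLden hLfe using fun H => hLK (FF R H)
  obtain ⟨c, hcc, hc⟩ := hAC R
  have hNC : (N : ℂ) ≠ 0 := by
    have : 0 < N := hN
    exact_mod_cast this.ne'
  have hZd : ∀ H (s : ℂ), 0 < s.im → DifferentiableAt ℂ (Z H) s := fun H s hs =>
    (hZ H).1 s hs.ne'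
  have hZ1 : ∀ H (s : ℂ), 1 < s.re → Z H s ≠ 0 := fun H s hs => by
    rw [(hZ H).2 s hs]; exact (hΛ s hs).2.1 H
  -- numerator and denominator
  obtain ⟨A, hA⟩ : ∃ A : ℂ → ℂ, A = fun w => ∏ H ∈ S, Z H w ^ (a H).toNat := ⟨_, rfl⟩
  obtain ⟨B, hB⟩ : ∃ B : ℂ → ℂ, B = fun w => ∏ H ∈ S, Z H w ^ (-a H).toNat := ⟨_, rfl⟩
  have hAd : ∀ s : ℂ, 0 < s.im → DifferentiableAt ℂ A s := fun s hs => by
    rw [hA]
    exact DifferentiableAt.fun_finsetProd fun H _ => (hZd H s hs).fun_pow _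
  have hBd : ∀ s : ℂ, 0 < s.im → DifferentiableAt ℂ B s := fun s hs => by
    rw [hB]
    exact DifferentiableAt.fun_finsetProd fun H _ => (hZd H s hs).fun_pow _
  have hB1 : ∀ s : ℂ, 1 < s.re → B s ≠ 0 := fun s hs => by
    rw [hB]
    exact Finset.prod_ne_zero_iff.2 fun H _ => pow_ne_zero _ (hZ1 H s hs)
  have hΛB : ∀ s : ℂ, 1 < s.re → Λ s ^ N * B s = A s := fun s hs => by
    rw [(hΛ s hs).2.2, hA, hB, ← Finset.prod_mul_distrib]
    refine Finset.prod_congr rfl fun H _ => ?_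
    rw [← (hZ H).2 s hs]
    exact zpow_split (hZ1 H s hs) (a H)
  have hΛne : ∀ s : ℂ, 1 < s.re → Λ s ≠ 0 := fun s hs hz => by
    have h2 := hΛB s hs
    rw [hz, zero_pow (by omega), zero_mul] at h2
    have h3 : A s ≠ 0 := by
      rw [hA]
      exact Finset.prod_ne_zero_iff.2 fun H _ => pow_ne_zero _ (hZ1 H s hs)
    exact h3 h2.symm
  have hΛd : ∀ s : ℂ, 1 < s.re → DifferentiableAt ℂ Λ s := fun s hs => by
    have h2 : DifferentiableAt ℂ (fun w => ∏ j, ∑' m : ℕ, h j m * (m : ℂ) ^ (-w)) s :=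
      DifferentiableAt.fun_finsetProd fun j _ => ser_differentiableAt (h j) (h0 j) (hle j) hs
    refine h2.congr_of_eventuallyEq ?_
    filter_upwards [(isOpen_lt continuous_const Complex.continuous_re).mem_nhds hs] with w hw
    exact (hΛ w hw).1
  obtain ⟨E, hEd, hE1, hEN, hEo⟩ := hRT.2 N Λ A B hN hArt.1 hAd hBd
    (fun s hs _ => ⟨hΛd s hs, hB1 s hs, hΛB s hs⟩)
  -- the involution
  obtain ⟨a0, b0, hab, htr⟩ := trace_involution (R.rho c) (by rw [← map_mul, hcc, map_one])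
  have hrank : ∀ H : Subgroup (R.K ≃ₐ[ℚ] R.K), (pc H 1 : ℂ) =
      (nrRealPlaces (FF R H) : ℂ) + 2 * (nrComplexPlaces (FF R H) : ℂ) := fun H => by
    rw [← (hc H).2, ← card_add_two_mul_card_eq_rank]
    push_cast
    rfl
  have hdim : LinearMap.trace ℂ R.V (R.rho 1) = (R.dim : ℂ) := by
    rw [map_one]
    exact LinearMap.trace_one ℂ R.V
  have e1 := hchar 1
  have e2 := hchar c
  rw [hdim] at e1
  rw [htr] at e2
  have hdim2 : (R.dim : ℂ) = (a0 : ℂ) + (b0 : ℂ) := by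
    rw [← Nat.cast_add, hab]
    rfl
  have hNa : (N : ℤ) * a0 = ∑ H ∈ S, a H *
      ((nrRealPlaces (FF R H) + nrComplexPlaces (FF R H) : ℕ) : ℤ) := by
    have e3 : (N : ℂ) * a0 = ∑ H ∈ S, (a H : ℂ) *
        ((nrRealPlaces (FF R H) : ℂ) + (nrComplexPlaces (FF R H) : ℂ)) := by
      have e4 : ∑ H ∈ S, (a H : ℂ) *
          ((nrRealPlaces (FF R H) : ℂ) + (nrComplexPlaces (FF R H) : ℂ)) =
          (1 / 2) * (∑ H ∈ S, (a H : ℂ) * (pc H 1 : ℂ) + ∑ H ∈ S, (a H : ℂ) * (pc H c : ℂ)) := by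
        rw [← Finset.sum_add_distrib, Finset.mul_sum]
        refine Finset.sum_congr rfl fun H _ => ?_
        rw [hrank H, ← (hc H).1]
        ring
      rw [e4, ← e1, ← e2, hdim2]
      ring
    have e5 : ((((N : ℤ) * a0 : ℤ)) : ℂ) = ((∑ H ∈ S, a H *
      ((nrRealPlaces (FF R H) + nrComplexPlaces (FF R H) : ℕ) : ℤ) : ℤ) : ℂ) := by
      push_cast
      exact e3
    exact_mod_cast e5
  have hNb : (N : ℤ) * b0 = ∑ H ∈ S, a H * ((nrComplexPlaces (FF R H) : ℕ) : ℤ) := by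
    have e3 : (N : ℂ) * b0 = ∑ H ∈ S, (a H : ℂ) * (nrComplexPlaces (FF R H) : ℂ) := by
      have e4 : ∑ H ∈ S, (a H : ℂ) * (nrComplexPlaces (FF R H) : ℂ) =
          (1 / 2) * (∑ H ∈ S, (a H : ℂ) * (pc H 1 : ℂ) - ∑ H ∈ S, (a H : ℂ) * (pc H c : ℂ)) := by
        rw [← Finset.sum_sub_distrib, Finset.mul_sum]
        refine Finset.sum_congr rfl fun H _ => ?_
        rw [hrank H, ← (hc H).1]
        ring
      rw [e4, ← e1, ← e2, hdim2]
      ring
    have e5 : ((((N : ℤ) * b0 : ℤ)) : ℂ) = ((∑ H ∈ S, a H *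
      ((nrComplexPlaces (FF R H) : ℕ) : ℤ) : ℤ) : ℂ) := by
      push_cast
      exact e3
    exact_mod_cast e5
  -- natural number versions
  have hsplit : ∀ (x : Subgroup (R.K ≃ₐ[ℚ] R.K) → ℕ) (n : ℕ),
      (N : ℤ) * n = ∑ H ∈ S, a H * (x H : ℤ) →
      N * n + ∑ H ∈ S, (-a H).toNat * x H = ∑ H ∈ S, (a H).toNat * x H := by
    intro x n hx
    have h2 : ((N * n + ∑ H ∈ S, (-a H).toNat * x H : ℕ) : ℤ) =
        ((∑ H ∈ S, (a H).toNat * x H : ℕ) : ℤ) := by
      push_cast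
      rw [hx, ← Finset.sum_add_distrib]
      refine Finset.sum_congr rfl fun H _ => ?_
      rw [← add_mul]
      congr 1
      omega
    exact_mod_cast h2
  have hNa' := hsplit (fun H => nrRealPlaces (FF R H) + nrComplexPlaces (FF R H)) a0 hNa
  have hNb' := hsplit (fun H => nrComplexPlaces (FF R H)) b0 hNb
  -- the discriminants
  obtain ⟨lD, hlD⟩ : ∃ lD : Subgroup (R.K ≃ₐ[ℚ] R.K) → ℝ,
      lD = fun H => Real.log |(discr (FF R H) : ℝ)| := ⟨_, rfl⟩
  have hd0 : ∀ H, 0 < |(discr (FF R H) : ℝ)| := fun H =>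
    abs_pos.2 (by exact_mod_cast discr_ne_zero (FF R H))
  obtain ⟨lA, hlA⟩ : ∃ lA : ℝ, lA = (∑ H ∈ S, (a H : ℝ) * lD H) / N := ⟨_, rfl⟩
  have hlA' : (N : ℝ) * lA + ∑ H ∈ S, ((-a H).toNat : ℝ) * lD H =
      ∑ H ∈ S, ((a H).toNat : ℝ) * lD H := by
    have hNR : (N : ℝ) ≠ 0 := by
      have : 0 < N := hN
      exact_mod_cast this.ne'
    rw [hlA, mul_div_cancel₀ _ hNR, ← Finset.sum_add_distrib]
    refine Finset.sum_congr rfl fun H _ => ?_
    rw [← add_mul]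
    congr 1
    have h3 : (a H : ℤ) + ((-a H).toNat : ℤ) = ((a H).toNat : ℤ) := by
      rcases le_total 0 (a H) with h4 | h4
      · rw [Int.toNat_of_nonneg h4, Int.toNat_of_nonpos (by omega)]; simp
      · rw [Int.toNat_of_nonneg (by omega : 0 ≤ -a H), Int.toNat_of_nonpos h4]; simp
    exact_mod_cast h3
  -- the factors of the functional equations
  obtain ⟨P, hP⟩ : ∃ P : ℂ → ℂ, P = fun s => Gammaℂ s * Complex.cos (Real.pi * s / 2) := ⟨_, rfl⟩
  obtain ⟨Q, hQ⟩ : ∃ Q : ℂ → ℂ, Q = fun s => Gammaℂ s * Complex.sin (Real.pi * s / 2) := ⟨_, rfl⟩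
  obtain ⟨yH, hyH⟩ : ∃ yH : Subgroup (R.K ≃ₐ[ℚ] R.K) → ℂ → ℂ, yH = fun H s =>
      cexp ((s - 1 / 2) * lD H) * P s ^ (nrRealPlaces (FF R H) + nrComplexPlaces (FF R H)) *
        Q s ^ (nrComplexPlaces (FF R H)) := ⟨_, rfl⟩
  obtain ⟨y0, hy0⟩ : ∃ y0 : ℂ → ℂ, y0 = fun s => cexp ((s - 1 / 2) * lA) * P s ^ a0 * Q s ^ b0 :=
    ⟨_, rfl⟩
  have hfeH : ∀ H (s : ℂ), 0 < s.im →
      (starRingEnd ℂ) (Z H (1 - (starRingEnd ℂ) s)) = Z H s * yH H s := by
    intro H s hs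
    rw [← hLfe H s hs, hyH, hP, hQ, hlD]
    congr 3
    rw [cpow_def_of_ne_zero (by exact_mod_cast (hd0 H).ne'), ← ofReal_log (hd0 H).le, mul_comm]
  have hyy : ∀ s : ℂ, y0 s ^ N * ∏ H ∈ S, yH H s ^ (-a H).toNat =
      ∏ H ∈ S, yH H s ^ (a H).toNat := by
    intro s
    have hprod : ∀ x : Subgroup (R.K ≃ₐ[ℚ] R.K) → ℕ, ∏ H ∈ S, yH H s ^ x H =
        cexp ((s - 1 / 2) * ((∑ H ∈ S, (x H : ℝ) * lD H : ℝ) : ℂ)) *
          P s ^ (∑ H ∈ S, x H * (nrRealPlaces (FF R H) + nrComplexPlaces (FF R H))) *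
          Q s ^ (∑ H ∈ S, x H * nrComplexPlaces (FF R H)) := by
      intro x
      rw [← Finset.prod_pow_eq_pow_sum, ← Finset.prod_pow_eq_pow_sum]
      push_cast
      rw [Finset.mul_sum, Complex.exp_sum, ← Finset.prod_mul_distrib, ← Finset.prod_mul_distrib]
      refine Finset.prod_congr rfl fun H _ => ?_
      rw [hyH]
      simp only
      have t1 : cexp ((s - 1 / 2) * lD H) ^ x H = cexp ((s - 1 / 2) * ((x H : ℂ) * lD H)) := by
        rw [← Complex.exp_nat_mul]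
        congr 1
        ring
      rw [mul_pow, mul_pow, t1, ← pow_mul, ← pow_mul, mul_comm (x H), mul_comm (x H)]
    rw [hprod, hprod, hy0]
    simp only
    rw [mul_pow, mul_pow, ← pow_mul, ← pow_mul, ← Complex.exp_nat_mul, ← hNa', ← hNb', ← hlA',
      pow_add, pow_add, mul_comm a0 N, mul_comm b0 N]
    have e6 : cexp ((s - 1 / 2) * (((N : ℝ) * lA + ∑ H ∈ S, ((-a H).toNat : ℝ) * lD H : ℝ) : ℂ)) =
        cexp ((N : ℂ) * ((s - 1 / 2) * lA)) *
          cexp ((s - 1 / 2) * ((∑ H ∈ S, ((-a H).toNat : ℝ) * lD H : ℝ) : ℂ)) := by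
      rw [← Complex.exp_add]
      congr 1
      push_cast
      ring
    rw [e6]
    ring
  have hAr : ∀ s : ℂ, 0 < s.im → (starRingEnd ℂ) (A (1 - (starRingEnd ℂ) s)) =
      A s * ∏ H ∈ S, yH H s ^ (a H).toNat := by
    intro s hs
    rw [hA, ← Finset.prod_mul_distrib]
    simp only [map_prod, map_pow]
    refine Finset.prod_congr rfl fun H _ => ?_
    rw [hfeH H s hs, mul_pow]
  have hBr : ∀ s : ℂ, 0 < s.im → (starRingEnd ℂ) (B (1 - (starRingEnd ℂ) s)) =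
      B s * ∏ H ∈ S, yH H s ^ (-a H).toNat := by
    intro s hs
    rw [hB, ← Finset.prod_mul_distrib]
    simp only [map_prod, map_pow]
    refine Finset.prod_congr rfl fun H _ => ?_
    rw [hfeH H s hs, mul_pow]
  -- the constant
  have hPd : ∀ s : ℂ, 0 < s.im → DifferentiableAt ℂ P s := fun s hs => by
    rw [hP]
    have : DifferentiableAt ℂ (fun s : ℂ => Complex.cos (Real.pi * s / 2)) s := by fun_prop
    exact (gammaC_differentiableAt hs).mul this
  have hQd : ∀ s : ℂ, 0 < s.im → DifferentiableAt ℂ Q s := fun s hs => by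
    rw [hQ]
    have : DifferentiableAt ℂ (fun s : ℂ => Complex.sin (Real.pi * s / 2)) s := by fun_prop
    exact (gammaC_differentiableAt hs).mul this
  have hy0d : ∀ s : ℂ, 0 < s.im → DifferentiableAt ℂ y0 s := fun s hs => by
    rw [hy0]
    have : DifferentiableAt ℂ (fun s : ℂ => cexp ((s - 1 / 2) * lA)) s := by fun_prop
    exact (this.mul ((hPd s hs).fun_pow _)).mul ((hQd s hs).fun_pow _)
  obtain ⟨ω, hω, hωG⟩ := hRT.1 N
    (fun s => E s * y0 s * (starRingEnd ℂ) (B (1 - (starRingEnd ℂ) s)))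
    (fun s => (starRingEnd ℂ) (E (1 - (starRingEnd ℂ) s)) * B s) hN
    (fun s hs => ((hEd s hs).mul (hy0d s hs)).mul (diff_refl hBd hs))
    (fun s hs => (diff_refl hEd hs).mul (hBd s hs))
    (fun s hs => by
      have him : 0 < (1 - (starRingEnd ℂ) s).im := by simpa using hs
      have e7 : ((starRingEnd ℂ) (E (1 - (starRingEnd ℂ) s))) ^ N =
          (A s * ∏ H ∈ S, yH H s ^ (a H).toNat) *
            (B s * ∏ H ∈ S, yH H s ^ (-a H).toNat) ^ (N - 1) := by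
        rw [← map_pow, hEN _ him, map_mul, map_pow, hAr s hs, hBr s hs]
      rw [mul_pow, mul_pow, mul_pow, e7, hEN s hs, hBr s hs, ← hyy s]
      obtain ⟨n, rfl⟩ : ∃ n, N = n + 1 := ⟨N - 1, by omega⟩
      rw [Nat.add_sub_cancel]
      ring)
  have hω1 : ‖ω‖ = 1 := norm_eq_one_of_pow_eq_one hω (by omega)
  have hω0 : ω ≠ 0 := by
    intro h2
    rw [h2, norm_zero] at hω1
    exact zero_ne_one hω1
  -- growth
  have hpbZ : ∀ H, PB (Z H) := fun H b => by
    obtain ⟨C, hC, h2⟩ := (L H).growth b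
    refine ⟨C, hC, fun s hs him => ?_⟩
    have h3 := (h2 s hs him).1
    rw [hLnum H] at h3
    exact h3
  have hpbB : PB B := by
    rw [hB]
    exact pb_prod S (fun H w => Z H w ^ (-a H).toNat) fun H => pb_pow (hpbZ H) _
  have hpbA : PB A := by
    rw [hA]
    exact pb_prod S (fun H w => Z H w ^ (a H).toNat) fun H => pb_pow (hpbZ H) _
  have hpbE : PB E := pb_root N hN (pb_mul hpbA (pb_pow hpbB (N - 1))) hEN
  -- lower bound
  have hge : ∃ c : ℝ, 0 < c ∧ ∀ s : ℂ, 2 ≤ s.re → 1 ≤ s.im → c ≤ ‖B s‖ := by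
    refine ⟨∏ H ∈ S, ((1 / 2 : ℝ) ^ (L H).n) ^ (-a H).toNat,
      Finset.prod_pos fun H _ => by positivity, fun s hs him => ?_⟩
    rw [hB]
    simp only
    rw [norm_prod]
    refine Finset.prod_le_prod (fun H _ => by positivity) fun H _ => ?_
    rw [norm_pow]
    refine pow_le_pow_left₀ (by positivity) ?_ _
    have h2 := (L H).series s (by linarith) (by linarith)
    rw [hLnum H, hLden H, one_mul] at h2
    rw [h2, norm_prod]
    have e : ((1 : ℝ) / 2) ^ (L H).n = ∏ _k : Fin (L H).n, (1 : ℝ) / 2 := by simp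
    rw [e]
    exact Finset.prod_le_prod (fun _ _ => by norm_num) fun k _ =>
      Pool.Agent.H62.DL.ser_ge _ ((L H).h_zero k) ((L H).h_one k) ((L H).h_mul k)
        ((L H).h_le k) _ hs
  refine ⟨{
    n := R.dim
    h := h
    h_zero := h0
    h_one := h1
    h_mul := hm
    h_le := hle
    κ := fun j => if (j : ℕ) < a0 then 0 else 1
    κ_mem := fun j => by
      split_ifs
      · exact Or.inl rfl
      · exact Or.inr rfl
    A := Real.exp lA
    A_pos := Real.exp_pos _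
    ε := ω⁻¹
    norm_ε := by rw [norm_inv, hω1, inv_one]
    num := E
    den := B
    diff := fun s hs => ⟨hEd s hs, hBd s hs⟩
    growth := fun b => by
      obtain ⟨C, hC, h2⟩ := hpbE b
      obtain ⟨D, hD, h3⟩ := hpbB b
      refine ⟨max C D, lt_max_of_lt_left hC, fun s hs him => ?_⟩
      have him0 : 0 < s.im := by linarith
      have key : ∀ X : ℝ, 0 < X → X ≤ max C D → X * s.im ^ X ≤ max C D * s.im ^ (max C D) := by
        intro X hX hXm
        have q1 : s.im ^ X ≤ s.im ^ (max C D) := Real.rpow_le_rpow_of_exponent_le him hXm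
        have q3 : 0 ≤ s.im ^ X := Real.rpow_nonneg him0.le _
        gcongr
      exact ⟨(h2 s hs him).trans (key C hC (le_max_left _ _)),
        (h3 s hs him).trans (key D hD (le_max_right _ _))⟩
    den_ne := fun s hs _ => hB1 s hs
    den_ge := hge
    series := fun s hs him => by
      rw [hE1 s hs him, (hΛ s hs).1, mul_comm]
    fe := fun s hs => by
      have h2 := hωG s hs
      have h3 : ∏ j : Fin R.dim, Gammaℂ s *
          Complex.cos (Real.pi * (s - ((if (j : ℕ) < a0 then 0 else 1 : ℝ) : ℂ)) / 2) =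
          P s ^ a0 * Q s ^ b0 := by
        have h4 := Pool.Agent.H48.DL.prod_split (n := R.dim) hab (P s) (Q s)
        rw [← h4]
        refine Finset.prod_congr rfl fun j _ => ?_
        split_ifs with hj
        · rw [hP]; simp
        · rw [hQ]
          simp only
          congr 1
          rw [← Complex.cos_sub_pi_div_two]
          congr 1
          push_cast
          ring
      rw [h3, Real.log_exp]
      have h5 : E s * (ω⁻¹ * cexp ((s - 1 / 2) * lA) * (P s ^ a0 * Q s ^ b0)) *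
          (starRingEnd ℂ) (B (1 - (starRingEnd ℂ) s)) =
          ω⁻¹ * (E s * y0 s * (starRingEnd ℂ) (B (1 - (starRingEnd ℂ) s))) := by
        rw [hy0]
        ring
      rw [h5, h2, inv_mul_cancel_left₀ hω0] }, rfl, htrh, fun z hz => ?_⟩
  have h2I : 0 < (2 + I : ℂ).im := by simp
  have h2I' : 1 < (2 + I : ℂ).re := by simp
  refine ⟨order_ne_top_of_ne hBd h2I (hB1 _ h2I') hz, order_ne_top_of_ne hEd h2I ?_ hz,
    hEo z hz⟩
  rw [hE1 _ h2I' h2I]
  exact mul_ne_zero (hΛne _ h2I') (hB1 _ h2I')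


theorem T_AA3_proved : T_AA3 :=
  aa3 T_LK_proved (ae2 T_EP_proved Pool.Agent.H29.HK.pe Pool.Agent.H11.HK.tr
    Pool.Agent.H11.HK.pw Pool.Agent.H29.HK.ai Pool.Agent.H11.HK.lp Pool.Agent.H48.DL.al ah2)
    Pool.Agent.H29.HK.ac Pool.Agent.H11.HK.rt

/-- (AA2) -/
theorem aa2 (hSP : T_SP) : T_AA2 := by
  intro R Λ hRat hArt hdim
  obtain ⟨L, hLn, hLh, hL⟩ := T_AA3_proved R Λ hRat hArt
  refine ⟨L, hLn, ?_, hL⟩
  intro hsum
  apply hSP R hdim
  have h1 : Summable (fun p : {p : Nat.Primes // LinearMap.trace ℂ R.V (R.fr p) ≠ 0} =>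
      (fun p : {p : ℕ // p.Prime ∧ ∑ j, L.h j p ≠ 0} => (1 : ℝ) / ((p : ℕ) : ℝ))
        ⟨((p : Nat.Primes) : ℕ), (p : Nat.Primes).2, by rw [hLh]; exact p.2⟩) := by
    refine hsum.comp_injective fun p q hpq => ?_
    have := congrArg Subtype.val hpq
    exact Subtype.ext (Subtype.ext this)
  exact h1

end Pool.Agent.H25.MZ
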