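import Pool.Agent.H25.MZ.RE0

/-!
# Equal densities: module FG0 (the final theorem for all functions with the data of an `LF`)
-/

set_option autoImplicit false

open Complex MeasureTheory Set Filter Topology

namespace Pool.Agent.H25.MZ

open Pool.Agent.H25.DL Pool.Agent.H25.HK Pool.Agent.H48.DL Pool.Agent.H23.GLH

/-- the data of `L` and `Λ` agree -/
def Agrees (L : LF) (Λ : ℂ → ℂ) : Prop :=
  ∀ z : ℂ, 0 < z.im → analyticOrderAt L.den z ≠ ⊤ ∧ analyticOrderAt L.num z ≠ ⊤ ∧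
    meromorphicOrderAt Λ z + meromorphicOrderAt L.den z = meromorphicOrderAt L.num z

lemma nat_orders {E : LF} {Λ : ℂ → ℂ} (h : Agrees E Λ) {w : ℂ} (hw : 0 < w.im) :
    ∃ a b : ℕ, analyticOrderAt E.num w = (a : ℕ∞) ∧ analyticOrderAt E.den w = (b : ℕ∞) ∧
      meromorphicOrderAt Λ w = (((a : ℤ) - (b : ℤ) : ℤ) : WithTop ℤ) := by
  obtain ⟨h1, h2, h3⟩ := h w hw
  have a1 : AnalyticAt ℂ E.num w := analyticAt_of_im_pos (fun s hs => (E.diff s hs).1) hw
  have a2 : AnalyticAt ℂ E.den w := analyticAt_of_im_pos (fun s hs => (E.diff s hs).2) hw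
  obtain ⟨a, ha⟩ := ENat.ne_top_iff_exists.1 h2
  obtain ⟨b, hb⟩ := ENat.ne_top_iff_exists.1 h1
  refine ⟨a, b, ha.symm, hb.symm, ?_⟩
  rw [a1.meromorphicOrderAt_eq, a2.meromorphicOrderAt_eq, ← ha, ← hb, ENat.map_natCast,
    ENat.map_natCast] at h3
  by_cases hΛ : meromorphicOrderAt Λ w = ⊤
  · rw [hΛ, top_add] at h3
    exact absurd h3.symm (WithTop.coe_ne_top (a := (a : ℤ)))
  · obtain ⟨x, hx⟩ := WithTop.ne_top_iff_exists.1 hΛ
    rw [← hx] at h3 ⊢
    have h4 : x + (b : ℤ) = (a : ℤ) := by exact_mod_cast h3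
    have h5 : x = (a : ℤ) - (b : ℤ) := by linarith
    rw [h5]

/-- (FG0) -/
theorem fg0 (hFI : T_FI0) : T_FG0 := by
  classical
  intro k m n Λ r τ n' M ρ σ hR hS hr hρ hd hex
  choose L hLn hLm hL using hR
  choose L' hLn' hLm' hL' using hS
  let F : Fam :=
    { I := Fin k
      J := Fin m
      fI := inferInstance
      fJ := inferInstance
      p := fun i => ⟨L i, r i, τ i, hr i⟩
      q := fun j => ⟨L' j, ρ j, σ j, hρ j⟩ }
  have hFd : F.d = 0 := by
    change ∑ i, r i * ((L i).n : ℝ) - ∑ j, ρ j * ((L' j).n : ℝ) = _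
    simp only [hLn, hLn']
    rw [hd, sub_self]
  -- the minimal dilation
  have hmin : ∃ (μ : ℝ) (P : Set ℕ), 0 < μ ∧ (∀ i, μ ≤ r i) ∧ (∀ j, μ ≤ ρ j) ∧
      (∀ p ∈ P, p.Prime ∧ pm F.f μ p ≠ 0) ∧
      ¬ Summable (fun p : P => (1 : ℝ) / ((p : ℕ) : ℝ)) := by
    rcases hex with ⟨i₀, h1, h2⟩ | ⟨j₀, h1, h2⟩
    · refine ⟨r i₀, {p : ℕ | p.Prime ∧ ∑ k, (L i₀).h k p ≠ 0}, hr i₀, fun i => ?_,
        fun j => (h2 j).le, ?_, hLm i₀⟩
      · by_cases h : i = i₀
        · rw [h]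
        · exact (h1 i h).le
      · rintro p ⟨hp, hp2⟩
        refine ⟨hp, ?_⟩
        rw [pm_fam F (r i₀) hp]
        have e1 : (∑ i, open Classical in if (F.p i).r = r i₀ then
            (∑ k, (F.p i).L.h k p) * (p : ℂ) ^ (-((F.p i).τ * I : ℂ)) else 0) =
            (∑ k, (L i₀).h k p) * (p : ℂ) ^ (-(τ i₀ * I : ℂ)) := by
          rw [Finset.sum_eq_single_of_mem (i₀ : Fin k) (Finset.mem_univ _)]
          · change (if r i₀ = r i₀ then _ else _) = _
            rw [if_pos rfl]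
          · intro i _ hi
            change (if r i = r i₀ then _ else _) = _
            rw [if_neg (h1 i hi).ne']
        have e2 : (∑ j, open Classical in if (F.q j).r = r i₀ then
            (∑ k, (F.q j).L.h k p) * (p : ℂ) ^ (-((F.q j).τ * I : ℂ)) else 0) = 0 := by
          refine Finset.sum_eq_zero fun j _ => ?_
          change (if ρ j = r i₀ then _ else _) = _
          rw [if_neg (h2 j).ne']
        rw [e1, e2, sub_zero]
        refine mul_ne_zero hp2 ?_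
        rw [Ne, cpow_eq_zero_iff]
        rintro ⟨h3, -⟩
        exact hp.ne_zero (by exact_mod_cast h3)
    · refine ⟨ρ j₀, {p : ℕ | p.Prime ∧ ∑ k, (L' j₀).h k p ≠ 0}, hρ j₀, fun i => (h2 i).le,
        fun j => ?_, ?_, hLm' j₀⟩
      · by_cases h : j = j₀
        · rw [h]
        · exact (h1 j h).le
      · rintro p ⟨hp, hp2⟩
        refine ⟨hp, ?_⟩
        rw [pm_fam F (ρ j₀) hp]
        have e1 : (∑ i, open Classical in if (F.p i).r = ρ j₀ then
            (∑ k, (F.p i).L.h k p) * (p : ℂ) ^ (-((F.p i).τ * I : ℂ)) else 0) = 0 := by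
          refine Finset.sum_eq_zero fun i _ => ?_
          change (if r i = ρ j₀ then _ else _) = _
          rw [if_neg (h2 i).ne']
        have e2 : (∑ j, open Classical in if (F.q j).r = ρ j₀ then
            (∑ k, (F.q j).L.h k p) * (p : ℂ) ^ (-((F.q j).τ * I : ℂ)) else 0) =
            (∑ k, (L' j₀).h k p) * (p : ℂ) ^ (-(σ j₀ * I : ℂ)) := by
          rw [Finset.sum_eq_single_of_mem (j₀ : Fin m) (Finset.mem_univ _)]
          · change (if ρ j₀ = ρ j₀ then _ else _) = _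
            rw [if_pos rfl]
          · intro j _ hj
            change (if ρ j = ρ j₀ then _ else _) = _
            rw [if_neg (h1 j hj).ne']
        rw [e1, e2, zero_sub, neg_ne_zero]
        refine mul_ne_zero hp2 ?_
        rw [Ne, cpow_eq_zero_iff]
        rintro ⟨h3, -⟩
        exact hp.ne_zero (by exact_mod_cast h3)
  obtain ⟨μ, P, hμ, hrμ, hρμ, hP, hns⟩ := hmin
  have hFr : ∀ l, μ ≤ (F.f l).r := by
    rintro (x | x)
    · exact hrμ x.1
    · exact hρμ x.1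
  obtain ⟨c, T₀, hc, h⟩ := hFI F μ P hFd hμ hFr hP hns
  obtain ⟨T₁, hT₁⟩ := exists_height r τ μ hμ hrμ
  obtain ⟨T₂, hT₂⟩ := exists_height ρ σ μ hμ hρμ
  refine ⟨c, max (max T₀ 0) (max T₁ T₂), hc, fun T W hT hW hWT => ?_⟩
  have hT0 : 0 ≤ T := ((le_max_right _ _).trans (le_max_left _ _)).trans hT
  obtain ⟨Z, hZ, hz⟩ := h T W (((le_max_left _ _).trans (le_max_left _ _)).trans hT) hW hWT
  refine ⟨Z, hZ, fun z hzZ => ?_⟩
  obtain ⟨h1', h2, h3⟩ := hz z hzZ
  have h1 : T / 4 ≤ z.im := by linarith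
  refine ⟨h1', h2, ?_⟩
  have hp : ∀ i, 0 < (wl (r i) (τ i) z).im :=
    hT₁ T (((le_max_left _ _).trans (le_max_right _ _)).trans hT) z h1
  have hq : ∀ j, 0 < (wl (ρ j) (σ j) z).im :=
    hT₂ T (((le_max_right _ _).trans (le_max_right _ _)).trans hT) z h1
  have hN := order_N F z hp hq
  have hM := order_M F z hp hq
  choose a b hab1 hab2 hab3 using fun i => nat_orders (hL i) (hp i)
  choose a' b' hab1' hab2' hab3' using fun j => nat_orders (hL' j) (hq j)
  have hN' : analyticOrderAt F.N z = ((∑ i, a i + ∑ j, b' j : ℕ) : ℕ∞) := by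
    rw [hN]
    change (∑ i, analyticOrderAt (L i).num (wl (r i) (τ i) z)) +
      ∑ j, analyticOrderAt (L' j).den (wl (ρ j) (σ j) z) = _
    simp only [hab1, hab2']
    push_cast
    rfl
  have hM' : analyticOrderAt F.M z = ((∑ i, b i + ∑ j, a' j : ℕ) : ℕ∞) := by
    rw [hM]
    change (∑ i, analyticOrderAt (L i).den (wl (r i) (τ i) z)) +
      ∑ j, analyticOrderAt (L' j).num (wl (ρ j) (σ j) z) = _
    simp only [hab2, hab1']
    push_cast
    rfl
  have h4 : analyticOrderAt F.N z < analyticOrderAt F.M z := h3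
  rw [hN', hM', ENat.natCast_lt_natCast] at h4
  have e1 : ∑ i, meromorphicOrderAt (Λ i) (wl (r i) (τ i) z) =
      ((∑ i, ((a i : ℤ) - (b i : ℤ)) : ℤ) : WithTop ℤ) := by
    rw [← sum_coeW]
    exact Finset.sum_congr rfl fun i _ => hab3 i
  have e2 : ∑ j, meromorphicOrderAt (M j) (wl (ρ j) (σ j) z) =
      ((∑ j, ((a' j : ℤ) - (b' j : ℤ)) : ℤ) : WithTop ℤ) := by
    rw [← sum_coeW]
    exact Finset.sum_congr rfl fun j _ => hab3' j
  rw [e1, e2, WithTop.coe_lt_coe, Finset.sum_sub_distrib, Finset.sum_sub_distrib]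
  have h5 : (∑ i, (a i : ℤ) + ∑ j, (b' j : ℤ)) < (∑ i, (b i : ℤ) + ∑ j, (a' j : ℤ)) := by
    exact_mod_cast h4
  linarith

end Pool.Agent.H25.MZ
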