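import Pool.Agent.H25.MZ.Targets
import Pool.Agent.H25.DL.FI2

/-!
# Equal densities: module FI0 (the general theorem)
-/

set_option autoImplicit false

open Complex MeasureTheory Set Filter Topology

namespace Pool.Agent.H25.MZ

open Pool.Agent.H25.DL Pool.Agent.H25.HK

lemma ph0_of_phase {Y : ℂ → ℂ} {t₀ : ℝ} (h : Phase Y 0 t₀) :
    ∃ (κ : ℂ) (B η : ℝ), Ph0 Y κ B η t₀ := by
  obtain ⟨κ, B, η, C, hκ, hC⟩ := h.main
  refine ⟨κ, B, η, h.one_le, hκ, h.diff, ⟨C, fun t ht => ?_⟩, fun b => ?_⟩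
  · have h1 := hC t ht
    rw [zero_mul, zero_mul, zero_add] at h1
    exact h1
  · obtain ⟨C', hC', hg⟩ := h.growth b
    refine ⟨C', hC', fun σ t h1 h2 h3 => ?_⟩
    have h4 := hg σ t h1 h2 h3
    rw [zero_mul, Real.rpow_zero, mul_one] at h4
    exact h4

/-- (FI0) -/
theorem fi0 (hC0 : T_C0) (hAR : T_AR0) (hPH : T_PH) (hCL : T_CL) : T_FI0 := by
  intro F μ P hd hμ0 hr hP hsum
  obtain ⟨t₀, hPh⟩ := hPH F
  rw [hd] at hPh
  obtain ⟨κ, B, η, hPh0⟩ := ph0_of_phase hPh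
  obtain ⟨ν, hν, hco⟩ := hAR F.Ix F.f μ B P hμ0 hr hP hsum
  obtain ⟨β₁, hβ₁, hC0⟩ := hC0 F.Ix F.f F.Y κ B η t₀ ν hPh0 hν hco
  obtain ⟨β₂, hβ₂, hCL⟩ := hCL F
  obtain ⟨C, T₁, hCL⟩ := hCL (max β₁ β₂) (le_max_right _ _)
  obtain ⟨c₀, T₂, hc₀, hC0⟩ := hC0 (max β₁ β₂) (le_max_left _ _) C
  -- large T
  have hlog := Real.tendsto_log_atTop
  obtain ⟨T₀, hT₀⟩ := eventually_atTop.1 ((hlog.eventually_ge_atTop 1).and
    ((hlog.eventually_ge_atTop (c₀⁻¹)).and ((eventually_ge_atTop T₁).and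
      ((eventually_ge_atTop T₂).and (eventually_ge_atTop (9 : ℝ))))))
  obtain ⟨c, hc⟩ : ∃ c : ℝ, c = min (c₀ / 8) (1 / 8) := ⟨_, rfl⟩
  have hc0 : 0 < c := by rw [hc]; exact lt_min (by positivity) (by norm_num)
  have hc1 : c ≤ c₀ / 8 := by rw [hc]; exact min_le_left _ _
  have hc8 : c ≤ 1 / 8 := by rw [hc]; exact min_le_right _ _
  have hcinv : 8 ≤ c⁻¹ := by
    rw [le_inv_comm₀ (by norm_num) hc0]
    linarith
  refine ⟨c, T₀, hc0, fun T W hT hW hWT => ?_⟩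
  obtain ⟨hl1, hlc, hT1, hT2, hT9⟩ := hT₀ T hT
  have hT0 : 0 < T := by linarith
  obtain ⟨ℓ, hℓ⟩ : ∃ ℓ : ℝ, ℓ = Real.log T := ⟨_, rfl⟩
  rw [← hℓ] at hl1 hW hlc
  have hℓ0 : 0 < ℓ := by linarith
  have hW8 : 8 * ℓ ≤ W := (by gcongr : 8 * ℓ ≤ c⁻¹ * ℓ).trans hW
  have hW0 : 0 < W := by linarith
  obtain ⟨a, ha⟩ : ∃ a : ℝ, a = T + 2 * ℓ := ⟨_, rfl⟩
  obtain ⟨W', hW'⟩ : ∃ W' : ℝ, W' = W - 4 * ℓ := ⟨_, rfl⟩
  have hW'2 : W / 2 ≤ W' := by linarith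
  have haT : T ≤ a := by linarith
  have haW : a + W' ≤ 2 * T := by linarith
  have hW'c : c₀⁻¹ ≤ W' := by linarith
  have hsubI : Icc a (a + W') ⊆ Icc T (2 * T) := Icc_subset_Icc haT haW
  obtain ⟨Ex, hEx⟩ : ∃ Ex : Set ℂ, Ex = {z | F.Exc z ∧ ∃ v ∈ Icc a (a + W'),
    |z.im - v| ≤ 2 * ℓ} := ⟨_, rfl⟩
  have hExim : ∀ z ∈ Ex, T ≤ z.im ∧ z.im ≤ T + W ∧ F.Exc z := by
    intro z hz
    rw [hEx] at hz
    obtain ⟨h1, v, hv, h2⟩ := hz
    have h3 := abs_le.1 h2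
    have h4 := hv.1
    have h5 := hv.2
    refine ⟨?_, ?_, h1⟩ <;> linarith
  by_cases hfin : Ex.Finite
  · refine ⟨hfin.toFinset, ?_, fun z hz => hExim z (hfin.mem_toFinset.1 hz)⟩
    obtain ⟨G, hG⟩ : ∃ G : Set ℝ, G = Icc a (a + W') \
        ⋃ z ∈ Ex, Icc (z.im - 2 * ℓ) (z.im + 2 * ℓ) := ⟨_, rfl⟩
    have hUm : MeasurableSet (⋃ z ∈ Ex, Icc (z.im - 2 * ℓ) (z.im + 2 * ℓ)) :=
      hfin.measurableSet_biUnion fun z _ => measurableSet_Icc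
    have hGm : MeasurableSet G := by rw [hG]; exact measurableSet_Icc.diff hUm
    have hGs : G ⊆ Icc a (a + W') := by rw [hG]; exact sdiff_subset
    have hclean : ∀ u ∈ G, Clean F.f F.Y (max β₁ β₂) C T u := by
      intro u hu
      refine hCL T hT1 u (hsubI (hGs hu)) fun z hz hzu => ?_
      rw [hG] at hu
      refine hu.2 ?_
      rw [mem_iUnion₂]
      refine ⟨z, ?_, ?_⟩
      · rw [hEx]
        refine ⟨hz, u, hu.1, ?_⟩
        rw [hℓ]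
        exact hzu
      · rw [← hℓ] at hzu
        have := abs_le.1 hzu
        constructor <;> linarith
    have h1 := hC0 T hT2 a W' haT haW hW'c G hGm hGs hclean
    have h2 : volume.real (Icc a (a + W') \ G) ≤ hfin.toFinset.card * (4 * ℓ) := by
      have h3 : Icc a (a + W') \ G ⊆ ⋃ z ∈ hfin.toFinset, Icc (z.im - 2 * ℓ) (z.im + 2 * ℓ) := by
        intro u hu
        rw [hG] at hu
        by_contra hcon
        refine hu.2 ⟨hu.1, fun h4 => hcon ?_⟩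
        rw [mem_iUnion₂] at h4 ⊢
        obtain ⟨z, hz, h5⟩ := h4
        exact ⟨z, hfin.mem_toFinset.2 hz, h5⟩
      have h4 : volume (⋃ z ∈ hfin.toFinset, Icc (z.im - 2 * ℓ) (z.im + 2 * ℓ)) ≤
          ∑ z ∈ hfin.toFinset, volume (Icc (z.im - 2 * ℓ) (z.im + 2 * ℓ)) :=
        measure_biUnion_finset_le _ _
      have h5 : ∑ z ∈ hfin.toFinset, volume (Icc (z.im - 2 * ℓ) (z.im + 2 * ℓ)) =
          ENNReal.ofReal (hfin.toFinset.card * (4 * ℓ)) := by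
        have h6 : ∀ z ∈ hfin.toFinset, volume (Icc (z.im - 2 * ℓ) (z.im + 2 * ℓ)) =
            ENNReal.ofReal (4 * ℓ) := by
          intro z _
          rw [Real.volume_Icc]
          congr 1
          ring
        rw [Finset.sum_congr rfl h6, Finset.sum_const, nsmul_eq_mul,
          ENNReal.ofReal_mul (Nat.cast_nonneg _), ENNReal.ofReal_natCast]
      have h6 := (measure_mono h3).trans (h4.trans h5.le)
      exact ENNReal.toReal_le_of_le_ofReal (by positivity) h6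
    rw [← hℓ]
    rw [div_le_iff₀ hℓ0]
    have h7 : c * W ≤ c₀ * W' / 4 := by
      have h8 : c * W ≤ c₀ / 8 * W := by gcongr
      have h9 : c₀ * (W / 2) ≤ c₀ * W' := by gcongr
      linarith
    have h8 : c₀ * W' ≤ hfin.toFinset.card * (4 * ℓ) := h1.trans h2
    linarith
  · obtain ⟨Z, hZs, hZc⟩ := Set.Infinite.exists_subset_card_eq hfin ⌈c * W / Real.log T⌉₊
    refine ⟨Z, ?_, fun z hz => hExim z (hZs hz)⟩
    rw [hZc]
    exact Nat.le_ceil _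

end Pool.Agent.H25.MZ
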