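import Pool.Agent.H25.MZ.Defs

/-!
# Zeros of L-functions: equal densities (d = 0) and multiplicities: exact targets
-/

set_option autoImplicit false

open Complex MeasureTheory Set Metric

namespace Pool.Agent.H25.MZ

open Pool.Agent.H25.DL Pool.Agent.H25.HK Pool.Agent.H23.GLH

/-! ### Part 1: `d = 0` -/

/-- (SHE) the contour shift at a clean height, with an arbitrary bound. -/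
def T_SHE : Prop :=
  ∀ (ι : Type) [Fintype ι] (f : ι → Fac) (Y : ℂ → ℂ) (β C ε : ℝ), 0 < β → 0 < ε →
    ∃ T₀ : ℝ, ∀ T : ℝ, T₀ ≤ T → ∀ u ∈ Icc T (2 * T), Clean f Y β C T u →
      ‖KK f Y β (Real.log T) u - LL f β (Real.log T) u‖ ≤ ε

/-- (LL0) approximation of the left side by an exponential polynomial. -/
def T_LL0 : Prop :=
  ∀ (ι : Type) [Fintype ι] (f : ι → Fac), ∃ β₁ : ℝ, 0 < β₁ ∧ ∀ β : ℝ, β₁ ≤ β → ∀ ε : ℝ, 0 < ε →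
    ∃ Z₁ : Finset (ι → ℕ), (∀ z ∈ Z₁, ∀ l, 1 ≤ z l) ∧
      ∀ Z : Finset (ι → ℕ), Z₁ ⊆ Z → (∀ z ∈ Z, ∀ l, 1 ≤ z l) →
      ∃ R₀ : ℝ, ∀ R : ℝ, R₀ ≤ R → ∀ u : ℝ, ‖LL f β R u - lA f β Z u‖ ≤ ε

/-- (KK0) approximation of the right side by an exponential polynomial. -/
def T_KK0 : Prop :=
  ∀ (ι : Type) [Fintype ι] (f : ι → Fac) (Y : ℂ → ℂ) (κ : ℂ) (B η t₀ : ℝ), Ph0 Y κ B η t₀ →
    ∃ β₁ : ℝ, 0 < β₁ ∧ ∀ β : ℝ, β₁ ≤ β → ∀ ε : ℝ, 0 < ε →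
    ∃ Z₁ : Finset (ι → ℕ), (∀ z ∈ Z₁, ∀ l, 1 ≤ z l) ∧
      ∀ Z : Finset (ι → ℕ), Z₁ ⊆ Z → (∀ z ∈ Z, ∀ l, 1 ≤ z l) →
      ∃ T₀ : ℝ, ∀ T : ℝ, T₀ ≤ T → ∀ u ∈ Icc T (2 * T),
        ‖KK f Y β (Real.log T) u - kA f κ B η β Z u‖ ≤ ε

/-- (C0) the core: a positive proportion of bad heights. -/
def T_C0 : Prop :=
  ∀ (ι : Type) [Fintype ι] (f : ι → Fac) (Y : ℂ → ℂ) (κ : ℂ) (B η t₀ ν : ℝ), Ph0 Y κ B η t₀ →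
    B < ν → co f ν ≠ 0 → ∃ β₁ : ℝ, 0 < β₁ ∧ ∀ β : ℝ, β₁ ≤ β → ∀ C : ℝ, ∃ c T₀ : ℝ, 0 < c ∧
    ∀ T : ℝ, T₀ ≤ T → ∀ a W : ℝ, T ≤ a → a + W ≤ 2 * T → c⁻¹ ≤ W →
      ∀ G : Set ℝ, MeasurableSet G → G ⊆ Icc a (a + W) → (∀ u ∈ G, Clean f Y β C T u) →
        c * W ≤ volume.real (Icc a (a + W) \ G)

/-- (AR0) a frequency with a non-zero coefficient. -/
def T_AR0 : Prop :=
  ∀ (ι : Type) [Fintype ι] (f : ι → Fac) (μ B : ℝ) (P : Set ℕ), 0 < μ → (∀ l, μ ≤ (f l).r) →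
    (∀ p ∈ P, p.Prime ∧ pm f μ p ≠ 0) → ¬ Summable (fun p : P => (1 : ℝ) / ((p : ℕ) : ℝ)) →
    ∃ ν : ℝ, B < ν ∧ co f ν ≠ 0

/-- (FI0) the general theorem for `d = 0`. -/
def T_FI0 : Prop :=
  ∀ (F : Fam) (μ : ℝ) (P : Set ℕ), F.d = 0 → 0 < μ → (∀ l, μ ≤ (F.f l).r) →
    (∀ p ∈ P, p.Prime ∧ pm F.f μ p ≠ 0) → ¬ Summable (fun p : P => (1 : ℝ) / ((p : ℕ) : ℝ)) →
    ∃ c T₀ : ℝ, 0 < c ∧ ∀ T W : ℝ, T₀ ≤ T → c⁻¹ * Real.log T ≤ W → W ≤ T → ∃ Z : Finset ℂ,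
      c * W / Real.log T ≤ Z.card ∧ ∀ z ∈ Z, T ≤ z.im ∧ z.im ≤ T + W ∧ F.Exc z

/-- (DV0) primes where two combinations of primitive characters differ. -/
def T_DV0 : Prop :=
  ∀ (U V : Type) [Fintype U] [Fintype V] (ψ : U → PrimChar) (τ : U → ℝ) (χ : V → PrimChar)
    (σ : V → ℝ), (∀ i j, ¬ (ψ i = χ j ∧ τ i = σ j)) → Nonempty (U ⊕ V) →
    ¬ Summable (fun p : {p : ℕ // p.Prime ∧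
      ∑ i, (ψ i).χ (p : ZMod (ψ i).q) * (p : ℂ) ^ (-(τ i * I : ℂ)) -
        ∑ j, (χ j).χ (p : ZMod (χ j).q) * (p : ℂ) ^ (-(σ j * I : ℂ)) ≠ 0} =>
      (1 : ℝ) / ((p : ℕ) : ℝ))

/-- (RE0) the theorem for Dirichlet `L`-functions, `d = 0`. -/
def T_RE0 : Prop :=
  ∀ (k m : ℕ) (ψ : Fin k → PrimChar) (r τ : Fin k → ℝ) (χ : Fin m → PrimChar)
    (ρ σ : Fin m → ℝ), 0 < k → (∀ i, 0 < r i) → (∀ j, 0 < ρ j) → ∑ i, r i = ∑ j, ρ j →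
    (∀ i j, ¬ (ψ i = χ j ∧ r i = ρ j ∧ τ i = σ j)) →
    ∃ c T₀ : ℝ, 0 < c ∧ ∀ T W : ℝ, T₀ ≤ T → c⁻¹ * Real.log T ≤ W → W ≤ T → ∃ Z : Finset ℂ,
      c * W / Real.log T ≤ Z.card ∧ ∀ z ∈ Z, T ≤ z.im ∧ z.im ≤ T + W ∧
        ∑ i, analyticOrderAt (ψ i).L (wl (r i) (τ i) z) <
          ∑ j, analyticOrderAt (χ j).L (wl (ρ j) (σ j) z)

/-- (SP) many Frobenius elements with non-zero trace. -/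
def T_SP : Prop :=
  ∀ R : ArtinRep, 0 < R.dim →
    ¬ Summable (fun p : {p : Nat.Primes // LinearMap.trace ℂ R.V (R.fr p) ≠ 0} =>
      (1 : ℝ) / (((p : Nat.Primes) : ℕ) : ℝ))

/-- (AA2) Artin `L`-functions with rational character. -/
def T_AA2 : Prop :=
  ∀ (R : ArtinRep) (Λ : ℂ → ℂ), Rat R → IsArtin R Λ → 0 < R.dim → Good2 Λ R.dim

/-- (DI2) primitive Dirichlet characters. -/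
def T_DI2 : Prop := ∀ π : PrimChar, Good2 π.L 1

/-- (FG0) the final theorem for `d = 0`. -/
def T_FG0 : Prop :=
  ∀ (k m : ℕ) (n : Fin k → ℕ) (Λ : Fin k → ℂ → ℂ) (r τ : Fin k → ℝ) (n' : Fin m → ℕ)
    (M : Fin m → ℂ → ℂ) (ρ σ : Fin m → ℝ), (∀ i, Good2 (Λ i) (n i)) →
    (∀ j, Good2 (M j) (n' j)) → (∀ i, 0 < r i) → (∀ j, 0 < ρ j) →
    ∑ i, r i * n i = ∑ j, ρ j * n' j →
    ((∃ i₀, (∀ i, i ≠ i₀ → r i₀ < r i) ∧ ∀ j, r i₀ < ρ j) ∨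
      ∃ j₀, (∀ j, j ≠ j₀ → ρ j₀ < ρ j) ∧ ∀ i, ρ j₀ < r i) →
    ∃ c T₀ : ℝ, 0 < c ∧ ∀ T W : ℝ, T₀ ≤ T → c⁻¹ * Real.log T ≤ W → W ≤ T → ∃ Z : Finset ℂ,
      c * W / Real.log T ≤ Z.card ∧ ∀ z ∈ Z, T ≤ z.im ∧ z.im ≤ T + W ∧
        ∑ i, meromorphicOrderAt (Λ i) (wl (r i) (τ i) z) <
          ∑ j, meromorphicOrderAt (M j) (wl (ρ j) (σ j) z)

/-! ### Part 2: multiplicities -/

/-- (ZC) the powers `ζ ^ (1/m)` and `ζ ^ (-1/m)`. -/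
def T_ZC : Prop :=
  ∀ (m : ℕ) (h : ℕ → ℂ), 1 ≤ m → h 0 = 0 → h 1 = 1 → (∀ a b, h (a * b) = h a * h b) →
    (∀ a, ‖h a‖ ≤ 1) → ∀ s : ℂ, 1 < s.re →
    (∑' k : ℕ, h k * ((zw (1 / (m : ℝ)) k : ℝ) : ℂ) * (k : ℂ) ^ (-s)) ^ m =
        ∑' k : ℕ, h k * (k : ℂ) ^ (-s) ∧
      (∑' k : ℕ, h k * ((zw (-(1 / (m : ℝ))) k : ℝ) : ℂ) * (k : ℂ) ^ (-s)) ^ m *
        ∑' k : ℕ, h k * (k : ℂ) ^ (-s) = 1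

/-- (RO) the product of the root series. -/
def T_RO : Prop :=
  ∀ (F : Fam) (m : ℕ), 1 ≤ m → ∀ s : ℂ, (∀ l, 1 < (wl (F.f l).r (F.f l).τ s).re) →
    Pr (rf F m) s ^ m = Pr F.f s

/-- (YR) a root of the inverse factor. -/
def T_YR : Prop :=
  ∀ (F : Fam) (m : ℕ), 1 ≤ m → ∃ (y : ℂ → ℂ) (t₀ : ℝ), Phase y (F.d / m) t₀ ∧
    ∀ s : ℂ, t₀ ≤ s.im → y s ^ m = F.Y s

/-- (RB) a root of a holomorphic function on a ball. -/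
def T_RB : Prop :=
  ∀ (c : ℂ) (R R' : ℝ) (m : ℕ) (G : ℂ → ℂ), 0 < R' → R' < R → 1 ≤ m →
    DifferentiableOn ℂ G (ball c R) → (∃ p ∈ ball c R, G p ≠ 0) →
    (∀ z ∈ ball c R, ∃ k : ℕ, analyticOrderAt G z = ((m * k : ℕ) : ℕ∞)) →
    ∃ g : ℂ → ℂ, DifferentiableOn ℂ g (ball c R') ∧ ∀ z ∈ ball c R', g z ^ m = G z

/-- (CL3) long windows without exceptional points are clean with one root of unity. -/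
def T_CL3 : Prop :=
  ∀ (F : Fam) (m : ℕ), 1 ≤ m → ∀ (y : ℂ → ℂ) (t₀ : ℝ), Phase y (F.d / m) t₀ →
    (∀ s : ℂ, t₀ ≤ s.im → y s ^ m = F.Y s) → ∃ β₁ : ℝ, 0 < β₁ ∧ ∀ β : ℝ, β₁ ≤ β →
    ∀ A : ℝ, 1 ≤ A → ∃ C T₀ : ℝ, ∀ T : ℝ, T₀ ≤ T → ∀ u ∈ Icc T (2 * T),
      (∀ z : ℂ, ExcM F m z → |z.im - u| ≤ 3 * Real.log T ^ A → False) →
      ∃ ω : ℂ, ω ^ m = 1 ∧ ∀ v ∈ Icc u (u + Real.log T ^ A),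
        Clean (rf F m) (fun s => ω * y s) β C T v

/-- (MV) a mean value theorem with slowly varying weights. -/
def T_MV : Prop :=
  ∃ C : ℝ, 0 < C ∧ ∀ (N : ℕ) (a : ℕ → ℂ) (g g' : ℕ → ℝ → ℂ) (x₀ x₁ V : ℝ), 1 ≤ N → x₀ ≤ x₁ →
    0 ≤ V → (∀ k, ∀ x ∈ Icc x₀ x₁, HasDerivAt (g k) (g' k x) x) →
    (∀ k, ContinuousOn (g' k) (Icc x₀ x₁)) → (∀ k, ∀ x ∈ Icc x₀ x₁, ‖g k x‖ ≤ 1) →
    (∀ k, ∀ x ∈ Icc x₀ x₁, ‖g' k x‖ * (x₁ - x₀) ≤ V) →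
    ∫ x in x₀..x₁, ‖∑ k ∈ Finset.Icc 1 N, a k * g k x *
        cexp (((-(x * Real.log k) : ℝ) : ℂ) * I)‖ ^ 2 ≤
      ∑ k ∈ Finset.Icc 1 N, ‖a k‖ ^ 2 * ∫ x in x₀..x₁, ‖g k x‖ ^ 2 +
      C * (1 + V) * N * Real.log (N + 1) * ∑ k ∈ Finset.Icc 1 N, ‖a k‖ ^ 2

/-- (MS) mean square of the smoothed local averages. -/
def T_MS : Prop :=
  ∀ (ι : Type) [Fintype ι] (f : ι → Fac) (Y : ℂ → ℂ) (d t₀ β D κ : ℝ), 0 < β → 0 < d →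
    Phase Y d t₀ → d < D → D < κ → κ ≤ 1 → (∀ l, (f l).r = 1) →
    ∃ C : ℝ, 0 < C ∧ ∀ A : ℝ, 1 ≤ A → ∃ T₀ : ℝ, ∀ T : ℝ, T₀ ≤ T → ∀ j ∈ mains f 1 D T,
      ∀ a W : ℝ, T ≤ a → a + W ≤ 2 * T → T ^ κ ≤ W →
      ∫ u in Icc a (a + W), ‖((Real.log T ^ A)⁻¹ : ℝ) •
          ∫ v in (0 : ℝ)..(Real.log T ^ A), KJ f Y β (Real.log T) j (u + v)‖ ^ 2 ≤
        C * Real.log T ^ C * (Real.log T ^ A) ^ (-(1 / 4) : ℝ) * W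

/-- (CO3) the core for multiplicities. -/
def T_CO3 : Prop :=
  ∀ (ι : Type) [Fintype ι] (f : ι → Fac) (Y : ℂ → ℂ) (d t₀ κ : ℝ), 0 < d → d < 1 →
    (∀ l, (f l).r = 1) → Phase Y d t₀ → d < κ → κ ≤ 1 →
    ∃ β₁ : ℝ, 0 < β₁ ∧ ∀ β : ℝ, β₁ ≤ β → ∃ A : ℝ, 1 ≤ A ∧ ∀ (C : ℝ) (m : ℕ), 1 ≤ m →
    ∃ T₀ : ℝ, ∀ T : ℝ, T₀ ≤ T → ∀ a W : ℝ, T ≤ a → a + W + Real.log T ^ A ≤ 2 * T → T ^ κ ≤ W →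
      ∀ G : Set ℝ, MeasurableSet G → G ⊆ Icc a (a + W) →
      (∀ u ∈ G, ∃ ω : ℂ, ω ^ m = 1 ∧ ∀ v ∈ Icc u (u + Real.log T ^ A),
        Clean f (fun s => ω * Y s) β C T v) →
      volume.real G ≤ W / 2

/-- (FI3) the general theorem on multiplicities. -/
def T_FI3 : Prop :=
  ∀ (F : Fam) (m : ℕ) (κ : ℝ), (∀ i, (F.p i).r = 1) → (∀ j, (F.q j).r = 1) → 0 < F.d →
    F.d < m → F.d / m < κ → κ ≤ 1 →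
    ∃ A T₀ : ℝ, 0 < A ∧ ∀ T W : ℝ, T₀ ≤ T → T ^ κ ≤ W → W ≤ T → ∃ Z : Finset ℂ,
      W / Real.log T ^ A ≤ Z.card ∧ ∀ z ∈ Z, T ≤ z.im ∧ z.im ≤ T + W ∧ ExcM F m z

/-- (FG3) the final theorem on multiplicities. -/
def T_FG3 : Prop :=
  ∀ (k : ℕ) (n : Fin k → ℕ) (Λ : Fin k → ℂ → ℂ) (c : Fin k → ℤ) (τ : Fin k → ℝ) (m : ℕ)
    (κ : ℝ), (∀ i, Good (Λ i) (n i)) → 0 < ∑ i, c i * (n i : ℤ) →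
    ∑ i, c i * (n i : ℤ) < (m : ℤ) → ((∑ i, c i * (n i : ℤ) : ℤ) : ℝ) / (m : ℝ) < κ → κ ≤ 1 →
    ∃ A T₀ : ℝ, 0 < A ∧ ∀ T W : ℝ, T₀ ≤ T → T ^ κ ≤ W → W ≤ T → ∃ Z : Finset ℂ,
      W / Real.log T ^ A ≤ Z.card ∧ ∀ z ∈ Z, T ≤ z.im ∧ z.im ≤ T + W ∧
        ¬ ∃ j : ℕ, ∑ i, c i * (meromorphicOrderAt (Λ i) (z + τ i * I)).untop₀ = (m : ℤ) * j

end Pool.Agent.H25.MZ
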