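import Pool.Agent.H25.MZ.C0
import Pool.Agent.H25.MZ.FI0
import Pool.Agent.H25.MZ.FG0
import Pool.Agent.H25.MZ.AA2
import Pool.Agent.H77.MZ.SP
import Pool.Agent.H80.MZ.AR0
import Pool.Agent.H80.MZ.DV0
import Pool.Agent.H80.MZ.SHE
import Pool.Agent.H87.MZ.KK0
import Pool.Agent.H87.MZ.LL0

/-!
# Equal densities: assembly
-/

set_option autoImplicit false

namespace Pool.Agent.H25.MZ

open Pool.Agent.H25.DL Pool.Agent.H25.HK Pool.Agent.H23.GLH

theorem T_C0_proved : T_C0 :=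
  c0 Pool.Agent.H80.MZ.she Pool.Agent.H87.MZ.ll0 Pool.Agent.H87.MZ.kk0

theorem T_FI0_proved : T_FI0 :=
  fi0 T_C0_proved Pool.Agent.H80.MZ.ar0 DL.T_PH_proved DL.T_CL_proved

theorem T_RE0_proved : T_RE0 := re0 T_FI0_proved Pool.Agent.H80.MZ.dv0

theorem T_FG0_proved : T_FG0 := fg0 T_FI0_proved

theorem T_SP_proved : T_SP := Pool.Agent.H77.MZ.sp T_EP_proved Pool.Agent.H29.HK.pe

theorem T_AA2_proved : T_AA2 := aa2 T_SP_proved

end Pool.Agent.H25.MZ
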