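import Pool.Agent.H25.MZ.Targets
import Pool.Agent.H25.DL.CO

/-!
# Multiplicities: module CO3 (the core)
-/

set_option autoImplicit false

open Complex MeasureTheory Set Filter Topology

namespace Pool.Agent.H25.MZ

open Pool.Agent.H25.DL Pool.Agent.H25.HK

variable {ι : Type} [Fintype ι]

lemma KK_smul (f : ι → Fac) (Y : ℂ → ℂ) (ω : ℂ) (β R u : ℝ) :
    KK f (fun s => ω * Y s) β R u = ω * KK f Y β R u := by
  unfold KK
  rw [← intervalIntegral.integral_const_mul]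
  congr 1
  funext y
  ring

lemma continuousOn_avg (f : ι → Fac) {Y : ℂ → ℂ} {d t₀ : ℝ} (hP : Phase Y d t₀) (β R : ℝ)
    (hR : 0 ≤ R) (j : ι → ℕ) (H : ℝ) (hH : 0 ≤ H) :
    ContinuousOn (fun u : ℝ => ((H⁻¹ : ℝ) • ∫ v in (0 : ℝ)..H, KJ f Y β R j (u + v)))
      (Ici (t₀ + R)) := by
  have h1 := continuousOn_KJ f hP β R hR j
  have h2 : Continuous fun x : ℝ => KJ f Y β R j (max x (t₀ + R)) := by
    have h3 : Continuous fun x : ℝ => max x (t₀ + R) := by fun_prop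
    exact h1.comp_continuous h3 fun x => mem_Ici.2 (le_max_right _ _)
  have h4 : Continuous (Function.uncurry fun u v : ℝ =>
      KJ f Y β R j (max (u + v) (t₀ + R))) := by
    unfold Function.uncurry
    exact h2.comp (f := fun p : ℝ × ℝ => p.1 + p.2) (by fun_prop)
  have h5 := intervalIntegral.continuous_parametric_intervalIntegral_of_continuous'
    (μ := volume) h4 0 H
  refine ((h5.const_smul (H⁻¹ : ℝ)).continuousOn).congr fun u hu => ?_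
  congr 1
  refine intervalIntegral.integral_congr fun v hv => ?_
  rw [uIcc_of_le hH] at hv
  have : max (u + v) (t₀ + R) = u + v := by
    apply max_eq_left
    have := hv.1
    have := mem_Ici.1 hu
    linarith
  simp only [this]

/-- (CO3) -/
theorem co3 (hMS : T_MS) (hLE : T_LE) (hEX : T_EX) (hSH : T_SH) (hCN : T_CN) : T_CO3 := by
  classical
  intro ι _ f Y d t₀ κ hd hd1 hr hP hdκ hκ1
  obtain ⟨D, hD⟩ : ∃ D : ℝ, D = (d + κ) / 2 := ⟨_, rfl⟩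
  have hdD : d < D := by linarith
  have hDκ : D < κ := by linarith
  have hD0 : 0 < D := by linarith
  have hr' : ∀ l, 1 ≤ (f l).r := fun l => (hr l).ge
  obtain ⟨β₁, hβ₁, hLE⟩ := hLE ι f
  obtain ⟨β₂, hβ₂, hEX⟩ := hEX ι f Y d t₀ 1 D hd hdD one_pos hr' hP
  refine ⟨max β₁ β₂, lt_max_of_lt_left hβ₁, fun β hβ => ?_⟩
  have hβ0 : 0 < β := hβ₁.trans_le ((le_max_left _ _).trans hβ)
  obtain ⟨R₀, hLE⟩ := hLE β ((le_max_left _ _).trans hβ)
  obtain ⟨T₃, hEX⟩ := hEX β ((le_max_right _ _).trans hβ)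
  obtain ⟨C₁, hC₁, hMS⟩ := hMS ι f Y d t₀ β D κ hβ0 hd hP hdD hDκ hκ1 hr
  obtain ⟨C₃, hC₃, hCN⟩ := hCN ι f 1 D hD0 one_pos hr'
  obtain ⟨A, hA⟩ : ∃ A : ℝ, A = 4 * (C₁ + 2 * C₃ + 1) := ⟨_, rfl⟩
  have hA1 : 1 ≤ A := by rw [hA]; linarith
  obtain ⟨T₂, hMS⟩ := hMS A hA1
  refine ⟨A, hA1, fun C m hm => ?_⟩
  choose T₄ hSH using fun ω : ℂ => hSH ι f (fun s => ω * Y s) β C hβ0
  obtain ⟨T₅, hT₅⟩ : ∃ T₅ : ℝ, ∀ ω : ℂ, ω ^ m = 1 → T₄ ω ≤ T₅ := by
    have hfin : {ω : ℂ | ω ^ m = 1}.Finite := by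
      refine ((Polynomial.nthRoots m (1 : ℂ)).toFinset.finite_toSet).subset ?_
      intro ω hω
      rw [Finset.mem_coe, Multiset.mem_toFinset, Polynomial.mem_nthRoots (by omega)]
      exact hω
    obtain ⟨T₅, hT₅⟩ := (hfin.image T₄).bddAbove
    exact ⟨T₅, fun ω hω => hT₅ (mem_image_of_mem _ hω)⟩
  -- large T
  have hlog := Real.tendsto_log_atTop
  have hlogT : ∀ K : ℝ, ∀ᶠ T : ℝ in atTop, K ≤ Real.log T := fun K => hlog.eventually_ge_atTop K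
  have hTlog : ∀ᶠ T : ℝ in atTop, t₀ + Real.log T ≤ T := by
    have h1 : (fun T : ℝ => t₀ + Real.log T) =o[atTop] fun T : ℝ => T := by
      refine Asymptotics.IsLittleO.add ?_ Real.isLittleO_log_id_atTop
      exact Asymptotics.isLittleO_const_left.2 (Or.inr (tendsto_norm_atTop_atTop))
    have h2 := h1.bound zero_lt_one
    filter_upwards [h2, eventually_ge_atTop (0 : ℝ)] with T hT hT0
    rw [one_mul, Real.norm_eq_abs, Real.norm_eq_abs, abs_of_nonneg hT0] at hT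
    exact (le_abs_self _).trans hT
  obtain ⟨T₆, hT₆⟩ := eventually_atTop.1 ((hlogT R₀).and ((hlogT (32 * (C₃ ^ 2 * C₁))).and
    ((hlogT 1).and (hTlog.and ((eventually_ge_atTop T₂).and
      ((eventually_ge_atTop T₃).and ((eventually_ge_atTop T₅).and
        (eventually_ge_atTop 3))))))))
  refine ⟨T₆, fun T hT a W haT haW hW G hGm hG hclean => ?_⟩
  obtain ⟨hR₀, hl32, hl1, hTl, hT2, hT3, hT5, hT33⟩ := hT₆ T hT
  have hT0 : 0 < T := by linarith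
  have hW0 : 0 < W := (Real.rpow_pos_of_pos hT0 κ).trans_le hW
  have hSMS := fun j hj => hMS T hT2 j hj a W haT (by
    have : 0 ≤ Real.log T ^ A := Real.rpow_nonneg (by linarith) _
    linarith) hW
  obtain ⟨hcard, -⟩ := hCN T hT33
  have hSH' : ∀ ω : ℂ, ω ^ m = 1 → ∀ u ∈ Icc T (2 * T), Clean f (fun s => ω * Y s) β C T u →
      ‖KK f (fun s => ω * Y s) β (Real.log T) u - LL f β (Real.log T) u‖ ≤ 1 / 8 :=
    fun ω hω => hSH ω T ((hT₅ ω hω).trans hT5)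
  have hEX' := hEX T hT3
  have hLE' := hLE (Real.log T) hR₀
  obtain ⟨ℓ, hℓ⟩ : ∃ ℓ : ℝ, ℓ = Real.log T := ⟨_, rfl⟩
  rw [← hℓ] at hl32 hl1 hTl hcard hSMS hSH' hEX' hLE' haW hclean
  have hℓ0 : 0 < ℓ := by linarith
  obtain ⟨H, hH⟩ : ∃ H : ℝ, H = ℓ ^ A := ⟨_, rfl⟩
  have hH0 : 0 < H := by rw [hH]; exact Real.rpow_pos_of_pos hℓ0 _
  rw [← hH] at hSMS haW hclean
  obtain ⟨M, hM⟩ : ∃ M : Finset (ι → ℕ), M = mains f 1 D T := ⟨_, rfl⟩
  rw [← hM] at hcard hSMS hEX'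
  obtain ⟨av, hav⟩ : ∃ av : (ι → ℕ) → ℝ → ℂ, av = fun j u =>
    ((H⁻¹ : ℝ) • ∫ v in (0 : ℝ)..H, KJ f Y β ℓ j (u + v)) := ⟨_, rfl⟩
  have hSMS' : ∀ j ∈ M, ∫ u in Icc a (a + W), ‖av j u‖ ^ 2 ≤
      C₁ * ℓ ^ C₁ * H ^ (-(1 / 4) : ℝ) * W := by
    intro j hj
    rw [hav]
    exact hSMS j hj
  -- the lower bound on G
  have hlow : ∀ u ∈ G, 1 / 4 ≤ ∑ j ∈ M, ‖av j u‖ := by
    intro u hu
    obtain ⟨ω, hω, hcl⟩ := hclean u hu
    have hω1 : ‖ω‖ = 1 := Complex.norm_eq_one_of_pow_eq_one hω (by omega)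
    have hu1 := (hG hu).1
    have hu2 := (hG hu).2
    have hmem : ∀ v ∈ Icc (0 : ℝ) H, u + v ∈ Icc T (2 * T) := by
      intro v hv
      exact ⟨by linarith [hv.1], by linarith [hv.2]⟩
    have hpt : ∀ v ∈ Icc (0 : ℝ) H, ‖ω * (∑ j ∈ M, KJ f Y β ℓ j (u + v)) - 1‖ ≤ 3 / 4 := by
      intro v hv
      have h1 := hLE' (u + v)
      have h2 := hEX' (u + v) (hmem v hv)
      have h3 := hSH' ω hω (u + v) (hmem v hv) (hcl (u + v) ⟨by linarith [hv.1], by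
        linarith [hv.2]⟩)
      rw [KK_smul] at h3
      have e : ω * (∑ j ∈ M, KJ f Y β ℓ j (u + v)) - 1 =
          -(ω * (KK f Y β ℓ (u + v) - ∑ j ∈ M, KJ f Y β ℓ j (u + v))) +
          (ω * KK f Y β ℓ (u + v) - LL f β ℓ (u + v)) + (LL f β ℓ (u + v) - 1) := by ring
      rw [e]
      refine (norm_add_le _ _).trans ?_
      have h5 := norm_add_le (-(ω * (KK f Y β ℓ (u + v) - ∑ j ∈ M, KJ f Y β ℓ j (u + v))))
        (ω * KK f Y β ℓ (u + v) - LL f β ℓ (u + v))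
      rw [norm_neg, norm_mul, hω1, one_mul] at h5
      linarith
    have hKc : ∀ j, ContinuousOn (fun v : ℝ => KJ f Y β ℓ j (u + v)) (uIcc 0 H) := by
      intro j
      refine (continuousOn_KJ f hP β ℓ hℓ0.le j).comp (by fun_prop) ?_
      intro v hv
      rw [uIcc_of_le hH0.le] at hv
      exact mem_Ici.2 (hTl.trans (hmem v hv).1)
    have hKi : ∀ j, IntervalIntegrable (fun v : ℝ => KJ f Y β ℓ j (u + v)) volume 0 H :=
      fun j => (hKc j).intervalIntegrable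
    have hSi : IntervalIntegrable (fun v : ℝ => ∑ j ∈ M, KJ f Y β ℓ j (u + v)) volume 0 H := by
      rw [← Finset.sum_fn]
      exact IntervalIntegrable.sum _ fun j _ => hKi j
    have h1 : ‖∫ v in (0 : ℝ)..H, (ω * (∑ j ∈ M, KJ f Y β ℓ j (u + v)) - 1)‖ ≤ 3 / 4 * H := by
      have h2 := intervalIntegral.norm_integral_le_of_norm_le_const (a := (0 : ℝ)) (b := H)
        (C := 3 / 4) (f := fun v : ℝ => ω * (∑ j ∈ M, KJ f Y β ℓ j (u + v)) - 1) ?_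
      · rwa [sub_zero, abs_of_pos hH0] at h2
      · intro v hv
        rw [uIoc_of_le hH0.le] at hv
        exact hpt v ⟨hv.1.le, hv.2⟩
    rw [intervalIntegral.integral_sub (hSi.const_mul ω) intervalIntegrable_const,
      intervalIntegral.integral_const_mul, intervalIntegral.integral_const, sub_zero] at h1
    have h3 : H / 4 ≤ ‖∫ v in (0 : ℝ)..H, ∑ j ∈ M, KJ f Y β ℓ j (u + v)‖ := by
      have h4 := norm_sub_norm_le (H • (1 : ℂ))
        (ω * ∫ v in (0 : ℝ)..H, ∑ j ∈ M, KJ f Y β ℓ j (u + v))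
      rw [norm_sub_rev] at h4
      rw [norm_mul, hω1, one_mul, norm_smul, norm_one, mul_one, Real.norm_eq_abs,
        abs_of_pos hH0] at h4
      linarith
    rw [intervalIntegral.integral_finsetSum fun j _ => hKi j] at h3
    have h5 := norm_sum_le M fun j => ∫ v in (0 : ℝ)..H, KJ f Y β ℓ j (u + v)
    have h6 : ∑ j ∈ M, ‖av j u‖ = H⁻¹ * ∑ j ∈ M, ‖∫ v in (0 : ℝ)..H, KJ f Y β ℓ j (u + v)‖ := by
      rw [Finset.mul_sum]
      refine Finset.sum_congr rfl fun j _ => ?_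
      rw [hav]
      dsimp only
      rw [norm_smul, Real.norm_eq_abs, abs_of_pos (inv_pos.2 hH0)]
    rw [h6, inv_mul_eq_div, le_div_iff₀ hH0]
    linarith
  -- integrability
  have hsubI : Icc a (a + W) ⊆ Ici (t₀ + ℓ) := fun u hu =>
    mem_Ici.2 (hTl.trans (haT.trans hu.1))
  have hfin : volume (Icc a (a + W)) ≠ ⊤ := by rw [Real.volume_Icc]; exact ENNReal.ofReal_ne_top
  have havc : ∀ j, ContinuousOn (fun u => ‖av j u‖ ^ 2) (Icc a (a + W)) := by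
    intro j
    have h1 : ContinuousOn (av j) (Icc a (a + W)) := by
      rw [hav]
      exact (continuousOn_avg f hP β ℓ hℓ0.le j H hH0.le).mono hsubI
    exact h1.norm.pow 2
  have havi : ∀ j, IntegrableOn (fun u => ‖av j u‖ ^ 2) (Icc a (a + W)) := fun j =>
    (havc j).integrableOn_Icc
  have hI1 : (1 / 16) * volume.real G ≤ ∫ u in G, (M.card : ℝ) * ∑ j ∈ M, ‖av j u‖ ^ 2 := by
    have h2 : ∫ _ in G, (1 / 16 : ℝ) ≤ ∫ u in G, (M.card : ℝ) * ∑ j ∈ M, ‖av j u‖ ^ 2 := by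
      refine setIntegral_mono_on ?_ ?_ hGm ?_
      · exact integrableOn_const (ne_of_lt ((measure_mono hG).trans_lt (lt_top_iff_ne_top.2 hfin)))
      · refine Integrable.const_mul ?_ _
        exact integrable_finsetSum _ fun j _ => (havi j).mono_set hG
      · intro u hu
        have h1 := hlow u hu
        have h3 : (∑ j ∈ M, ‖av j u‖) ^ 2 ≤ (M.card : ℝ) * ∑ j ∈ M, ‖av j u‖ ^ 2 :=
          sq_sum_le_card_mul_sum_sq
        nlinarith
    rw [setIntegral_const, smul_eq_mul] at h2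
    linarith
  have hI2 : ∫ u in G, (M.card : ℝ) * ∑ j ∈ M, ‖av j u‖ ^ 2 ≤
      (M.card : ℝ) * ((M.card : ℝ) * (C₁ * ℓ ^ C₁ * H ^ (-(1 / 4) : ℝ) * W)) := by
    rw [integral_const_mul]
    refine mul_le_mul_of_nonneg_left ?_ (Nat.cast_nonneg _)
    rw [integral_finsetSum _ fun j _ => (havi j).mono_set hG]
    calc ∑ j ∈ M, ∫ u in G, ‖av j u‖ ^ 2 ≤
        ∑ j ∈ M, C₁ * ℓ ^ C₁ * H ^ (-(1 / 4) : ℝ) * W := by
          refine Finset.sum_le_sum fun j hj => ?_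
          refine le_trans ?_ (hSMS' j hj)
          exact setIntegral_mono_set (havi j) (ae_of_all _ fun u => sq_nonneg _)
            hG.eventuallyLE
      _ = (M.card : ℝ) * (C₁ * ℓ ^ C₁ * H ^ (-(1 / 4) : ℝ) * W) := by
          rw [Finset.sum_const, nsmul_eq_mul]
  have hHA : H ^ (-(1 / 4) : ℝ) = ℓ ^ (-(C₁ + 2 * C₃ + 1)) := by
    rw [hH, ← Real.rpow_mul hℓ0.le]
    congr 1
    rw [hA]
    ring
  have hfinal : (M.card : ℝ) * ((M.card : ℝ) * (C₁ * ℓ ^ C₁ * H ^ (-(1 / 4) : ℝ) * W)) ≤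
      W / 32 := by
    have hc0 : (0 : ℝ) ≤ M.card := Nat.cast_nonneg _
    have p1 : 0 ≤ ℓ ^ C₁ := Real.rpow_nonneg hℓ0.le _
    have p2 : 0 ≤ H ^ (-(1 / 4) : ℝ) := Real.rpow_nonneg hH0.le _
    calc (M.card : ℝ) * ((M.card : ℝ) * (C₁ * ℓ ^ C₁ * H ^ (-(1 / 4) : ℝ) * W))
        ≤ (C₃ * ℓ ^ C₃) * ((C₃ * ℓ ^ C₃) * (C₁ * ℓ ^ C₁ * H ^ (-(1 / 4) : ℝ) * W)) := by
          gcongr
      _ = (C₃ ^ 2 * C₁) * (ℓ ^ C₃ * ℓ ^ C₃ * ℓ ^ C₁ * ℓ ^ (-(C₁ + 2 * C₃ + 1))) * W := by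
          rw [hHA]
          ring
      _ = (C₃ ^ 2 * C₁) * ℓ⁻¹ * W := by
          rw [← Real.rpow_add hℓ0, ← Real.rpow_add hℓ0, ← Real.rpow_add hℓ0]
          have : C₃ + C₃ + C₁ + -(C₁ + 2 * C₃ + 1) = -1 := by ring
          rw [this, Real.rpow_neg_one]
      _ ≤ W / 32 := by
          have h1 : (C₃ ^ 2 * C₁) * ℓ⁻¹ ≤ 1 / 32 := by
            rw [← div_eq_mul_inv, div_le_iff₀ hℓ0]
            linarith
          nlinarith
  linarith

end Pool.Agent.H25.MZ
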