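import Pool.Agent.H25.MZ.FG0

/-!
# Multiplicities: module FG3 (the final theorem)
-/

set_option autoImplicit false

open Complex MeasureTheory Set Filter Topology

namespace Pool.Agent.H25.MZ

open Pool.Agent.H25.DL Pool.Agent.H25.HK Pool.Agent.H48.DL Pool.Agent.H23.GLH

lemma wl_one (τ : ℝ) (z : ℂ) : wl 1 τ z = z + τ * I := by
  unfold wl
  push_cast
  ring

lemma sum_sigma_fin {k : ℕ} (e : Fin k → ℕ) {M : Type} [AddCommMonoid M] (g : Fin k → M) :
    ∑ x : (Σ i : Fin k, Fin (e i)), g x.1 = ∑ i, e i • g i := by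
  rw [Fintype.sum_sigma]
  refine Finset.sum_congr rfl fun i _ => ?_
  change ∑ _j : Fin (e i), g i = _
  rw [Finset.sum_const, Finset.card_univ, Fintype.card_fin]

/-- (FG3) -/
theorem fg3 (hFI : T_FI3) : T_FG3 := by
  classical
  intro k n Λ c τ m κ hR hd0 hdm hκ hκ1
  choose L hLn hL using hR
  let F : Fam :=
    { I := Σ i : Fin k, Fin (c i).toNat
      J := Σ i : Fin k, Fin (-c i).toNat
      fI := inferInstance
      fJ := inferInstance
      p := fun x => ⟨L x.1, 1, τ x.1, one_pos⟩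
      q := fun x => ⟨L x.1, 1, τ x.1, one_pos⟩ }
  have hFd : F.d = ((∑ i, c i * (n i : ℤ) : ℤ) : ℝ) := by
    change ∑ x : (Σ i : Fin k, Fin (c i).toNat), (1 : ℝ) * ((L x.1).n : ℝ) -
      ∑ x : (Σ i : Fin k, Fin (-c i).toNat), (1 : ℝ) * ((L x.1).n : ℝ) = _
    rw [sum_sigma_fin (fun i => (c i).toNat) (fun i => (1 : ℝ) * ((L i).n : ℝ)),
      sum_sigma_fin (fun i => (-c i).toNat) (fun i => (1 : ℝ) * ((L i).n : ℝ)),
      ← Finset.sum_sub_distrib]
    push_cast
    refine Finset.sum_congr rfl fun i _ => ?_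
    rw [hLn, nsmul_eq_mul, nsmul_eq_mul, one_mul, ← sub_mul]
    congr 1
    have h1 : (((c i).toNat : ℤ) - ((-c i).toNat : ℤ) : ℤ) = c i := by
      rcases le_total 0 (c i) with h4 | h4
      · rw [Int.toNat_of_nonneg h4, Int.toNat_of_nonpos (by omega)]; simp
      · rw [Int.toNat_of_nonneg (by omega : 0 ≤ -c i), Int.toNat_of_nonpos h4]; simp
    have h2 : ((((c i).toNat : ℤ) - ((-c i).toNat : ℤ) : ℤ) : ℝ) = ((c i : ℤ) : ℝ) := by rw [h1]
    push_cast at h2
    exact h2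
  obtain ⟨A, T₀, hA, h⟩ := hFI F m κ (fun _ => rfl) (fun _ => rfl)
    (by rw [hFd]; exact_mod_cast hd0) (by rw [hFd]; exact_mod_cast hdm)
    (by rw [hFd]; exact hκ) hκ1
  obtain ⟨T₁, hT₁⟩ := exists_height (fun _ : Fin k => (1 : ℝ)) τ 1 one_pos (fun _ => le_rfl)
  refine ⟨A, max (max T₀ 0) T₁, hA, fun T W hT hW hWT => ?_⟩
  have hT0 : 0 ≤ T := ((le_max_right _ _).trans (le_max_left _ _)).trans hT
  obtain ⟨Z, hZ, hz⟩ := h T W (((le_max_left _ _).trans (le_max_left _ _)).trans hT) hW hWT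
  refine ⟨Z, hZ, fun z hzZ => ?_⟩
  obtain ⟨h1', h2, h3⟩ := hz z hzZ
  have h1 : T / 4 ≤ z.im := by linarith
  refine ⟨h1', h2, ?_⟩
  have hp : ∀ i, 0 < (wl 1 (τ i) z).im := hT₁ T ((le_max_right _ _).trans hT) z h1
  have hN := order_N F z (fun x => hp x.1) (fun x => hp x.1)
  have hM := order_M F z (fun x => hp x.1) (fun x => hp x.1)
  choose a b hab1 hab2 hab3 using fun i => nat_orders (hL i) (hp i)
  have hN' : analyticOrderAt F.N z =
      ((∑ i, (c i).toNat * a i + ∑ i, (-c i).toNat * b i : ℕ) : ℕ∞) := by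
    rw [hN]
    change (∑ x : (Σ i : Fin k, Fin (c i).toNat), analyticOrderAt (L x.1).num
        (wl 1 (τ x.1) z)) + ∑ x : (Σ i : Fin k, Fin (-c i).toNat),
        analyticOrderAt (L x.1).den (wl 1 (τ x.1) z) = _
    rw [sum_sigma_fin (fun i => (c i).toNat) (fun i => analyticOrderAt (L i).num (wl 1 (τ i) z)),
      sum_sigma_fin (fun i => (-c i).toNat) (fun i => analyticOrderAt (L i).den (wl 1 (τ i) z))]
    simp only [hab1, hab2, nsmul_eq_mul]
    push_cast
    rfl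
  have hM' : analyticOrderAt F.M z =
      ((∑ i, (c i).toNat * b i + ∑ i, (-c i).toNat * a i : ℕ) : ℕ∞) := by
    rw [hM]
    change (∑ x : (Σ i : Fin k, Fin (c i).toNat), analyticOrderAt (L x.1).den
        (wl 1 (τ x.1) z)) + ∑ x : (Σ i : Fin k, Fin (-c i).toNat),
        analyticOrderAt (L x.1).num (wl 1 (τ x.1) z) = _
    rw [sum_sigma_fin (fun i => (c i).toNat) (fun i => analyticOrderAt (L i).den (wl 1 (τ i) z)),
      sum_sigma_fin (fun i => (-c i).toNat) (fun i => analyticOrderAt (L i).num (wl 1 (τ i) z))]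
    simp only [hab1, hab2, nsmul_eq_mul]
    push_cast
    rfl
  rintro ⟨j, hj⟩
  apply h3 j
  rw [hN', hM', ← Nat.cast_add, Nat.cast_inj]
  have hord : ∀ i, (meromorphicOrderAt (Λ i) (z + τ i * I)).untop₀ = (a i : ℤ) - (b i : ℤ) := by
    intro i
    rw [← wl_one, hab3 i, WithTop.untop₀_coe]
  simp only [hord] at hj
  have key : ∀ i, ((c i).toNat : ℤ) * a i + ((-c i).toNat : ℤ) * b i =
      ((c i).toNat : ℤ) * b i + ((-c i).toNat : ℤ) * a i + c i * ((a i : ℤ) - (b i : ℤ)) := by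
    intro i
    rcases le_total 0 (c i) with h4 | h4
    · rw [Int.toNat_of_nonneg h4, Int.toNat_of_nonpos (by omega)]
      push_cast
      ring
    · rw [Int.toNat_of_nonneg (by omega : 0 ≤ -c i), Int.toNat_of_nonpos h4]
      push_cast
      ring
  have h5 : ((∑ i, (c i).toNat * a i + ∑ i, (-c i).toNat * b i : ℕ) : ℤ) =
      ((∑ i, (c i).toNat * b i + ∑ i, (-c i).toNat * a i + m * j : ℕ) : ℤ) := by
    push_cast
    rw [← hj, ← Finset.sum_add_distrib, ← Finset.sum_add_distrib, ← Finset.sum_add_distrib]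
    exact Finset.sum_congr rfl fun i _ => key i
  exact_mod_cast h5

end Pool.Agent.H25.MZ
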