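import Pool.Agent.H25.MZ.Targets
import Pool.Agent.H25.DL.FI2

/-!
# Multiplicities: module FI3 (the general theorem)
-/

set_option autoImplicit false

open Complex MeasureTheory Set Filter Topology

namespace Pool.Agent.H25.MZ

open Pool.Agent.H25.DL Pool.Agent.H25.HK

/-- (FI3) -/
theorem fi3 (hCO : T_CO3) (hCL : T_CL3) (hYR : T_YR) : T_FI3 := by
  intro F m κ hI hJ hd hdm hκ hκ1
  have hm0 : (0 : ℝ) < m := hd.trans hdm
  have hm1 : 1 ≤ m := by
    have : 0 < m := by exact_mod_cast hm0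
    exact this
  obtain ⟨y, t₀, hy, hyF⟩ := hYR F m hm1
  have hr : ∀ l, (rf F m l).r = 1 := by
    rintro (x | x)
    · exact hI x.1
    · exact hJ x.1
  have hd0 : 0 < F.d / m := div_pos hd hm0
  have hd1 : F.d / m < 1 := (div_lt_one hm0).2 hdm
  obtain ⟨κ', hκ'⟩ : ∃ κ' : ℝ, κ' = (κ + F.d / m) / 2 := ⟨_, rfl⟩
  have hκ'1 : F.d / m < κ' := by linarith
  have hκ'2 : κ' < κ := by linarith
  obtain ⟨β₁, hβ₁, hCO⟩ := hCO F.Ix (rf F m) y (F.d / m) t₀ κ' hd0 hd1 hr hy hκ'1 (by linarith)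
  obtain ⟨β₂, hβ₂, hCL⟩ := hCL F m hm1 y t₀ hy hyF
  obtain ⟨A, hA1, hCO⟩ := hCO (max β₁ β₂) (le_max_left _ _)
  obtain ⟨C, T₁, hCL⟩ := hCL (max β₁ β₂) (le_max_right _ _) A hA1
  obtain ⟨T₂, hCO⟩ := hCO C m hm1
  -- large T
  have hlog := Real.tendsto_log_atTop
  have hκ0 : 0 < κ := by linarith
  have hsmall : ∀ᶠ T : ℝ in atTop, 14 * Real.log T ^ A ≤ T ^ κ := by
    have h1 : (fun T : ℝ => Real.log T ^ A) =o[atTop] fun T : ℝ => T ^ κ :=
      isLittleO_log_rpow_rpow_atTop A hκ0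
    have h3 := (h1.const_mul_left 14).bound zero_lt_one
    filter_upwards [h3, eventually_ge_atTop (0 : ℝ)] with T hT hT0
    rw [one_mul, Real.norm_eq_abs, Real.norm_eq_abs, abs_of_nonneg (Real.rpow_nonneg hT0 _)] at hT
    exact (le_abs_self _).trans hT
  have hpow : ∀ᶠ T : ℝ in atTop, 2 * T ^ κ' ≤ T ^ κ := by
    have h1 : Tendsto (fun T : ℝ => T ^ (κ - κ')) atTop atTop :=
      tendsto_rpow_atTop (by linarith)
    filter_upwards [h1.eventually_ge_atTop 2, eventually_gt_atTop (0 : ℝ)] with T hT hT0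
    calc 2 * T ^ κ' ≤ T ^ (κ - κ') * T ^ κ' := by
          have := Real.rpow_nonneg hT0.le κ'
          gcongr
      _ = T ^ κ := by rw [← Real.rpow_add hT0]; congr 1; ring
  obtain ⟨T₀, hT₀⟩ := eventually_atTop.1 ((hlog.eventually_ge_atTop 24).and
    (hsmall.and (hpow.and ((eventually_ge_atTop T₁).and ((eventually_ge_atTop T₂).and
      (eventually_ge_atTop (9 : ℝ)))))))
  refine ⟨A + 1, T₀, by linarith, fun T W hT hW hWT => ?_⟩
  obtain ⟨hl24, hsm, hpw, hT1, hT2, hT9⟩ := hT₀ T hT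
  have hT0 : 0 < T := by linarith
  have hCL' := hCL T hT1
  have hCO' := hCO T hT2
  obtain ⟨ℓ, hℓ⟩ : ∃ ℓ : ℝ, ℓ = Real.log T := ⟨_, rfl⟩
  rw [← hℓ] at hl24 hsm hCL' hCO' ⊢
  have hℓ0 : 0 < ℓ := by linarith
  obtain ⟨H, hH⟩ : ∃ H : ℝ, H = ℓ ^ A := ⟨_, rfl⟩
  have hH0 : 0 < H := by rw [hH]; exact Real.rpow_pos_of_pos hℓ0 _
  rw [← hH] at hsm hCL' hCO'
  have hW14 : 14 * H ≤ W := hsm.trans hW
  have hW0 : 0 < W := by linarith
  obtain ⟨a, ha⟩ : ∃ a : ℝ, a = T + 3 * H := ⟨_, rfl⟩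
  obtain ⟨W', hW'⟩ : ∃ W' : ℝ, W' = W - 7 * H := ⟨_, rfl⟩
  have hW'2 : W / 2 ≤ W' := by linarith
  have haT : T ≤ a := by linarith
  have haW : a + W' + H ≤ 2 * T := by linarith
  have hW'κ : T ^ κ' ≤ W' := by linarith
  have hsubI : Icc a (a + W') ⊆ Icc T (2 * T) := Icc_subset_Icc haT (by linarith)
  obtain ⟨Ex, hEx⟩ : ∃ Ex : Set ℂ, Ex = {z | ExcM F m z ∧ ∃ v ∈ Icc a (a + W'),
    |z.im - v| ≤ 3 * H} := ⟨_, rfl⟩
  have hExim : ∀ z ∈ Ex, T ≤ z.im ∧ z.im ≤ T + W ∧ ExcM F m z := by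
    intro z hz
    rw [hEx] at hz
    obtain ⟨h1, v, hv, h2⟩ := hz
    have h3 := abs_le.1 h2
    have h4 := hv.1
    have h5 := hv.2
    refine ⟨?_, ?_, h1⟩ <;> linarith
  by_cases hfin : Ex.Finite
  · refine ⟨hfin.toFinset, ?_, fun z hz => hExim z (hfin.mem_toFinset.1 hz)⟩
    obtain ⟨G, hG⟩ : ∃ G : Set ℝ, G = Icc a (a + W') \
        ⋃ z ∈ Ex, Icc (z.im - 3 * H) (z.im + 3 * H) := ⟨_, rfl⟩
    have hUm : MeasurableSet (⋃ z ∈ Ex, Icc (z.im - 3 * H) (z.im + 3 * H)) :=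
      hfin.measurableSet_biUnion fun z _ => measurableSet_Icc
    have hGm : MeasurableSet G := by rw [hG]; exact measurableSet_Icc.diff hUm
    have hGs : G ⊆ Icc a (a + W') := by rw [hG]; exact sdiff_subset
    have hclean : ∀ u ∈ G, ∃ ω : ℂ, ω ^ m = 1 ∧ ∀ v ∈ Icc u (u + H),
        Clean (rf F m) (fun s => ω * y s) (max β₁ β₂) C T v := by
      intro u hu
      refine hCL' u (hsubI (hGs hu)) fun z hz hzu => ?_
      rw [hG] at hu
      refine hu.2 ?_
      rw [mem_iUnion₂]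
      refine ⟨z, ?_, ?_⟩
      · rw [hEx]
        exact ⟨hz, u, hu.1, hzu⟩
      · have := abs_le.1 hzu
        constructor <;> linarith
    have h1 := hCO' a W' haT haW hW'κ G hGm hGs hclean
    have h2 : volume.real (Icc a (a + W') \ G) ≤ hfin.toFinset.card * (6 * H) := by
      have h3 : Icc a (a + W') \ G ⊆ ⋃ z ∈ hfin.toFinset, Icc (z.im - 3 * H) (z.im + 3 * H) := by
        intro u hu
        rw [hG] at hu
        by_contra hcon
        refine hu.2 ⟨hu.1, fun h4 => hcon ?_⟩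
        rw [mem_iUnion₂] at h4 ⊢
        obtain ⟨z, hz, h5⟩ := h4
        exact ⟨z, hfin.mem_toFinset.2 hz, h5⟩
      have h4 : volume (⋃ z ∈ hfin.toFinset, Icc (z.im - 3 * H) (z.im + 3 * H)) ≤
          ∑ z ∈ hfin.toFinset, volume (Icc (z.im - 3 * H) (z.im + 3 * H)) :=
        measure_biUnion_finset_le _ _
      have h5 : ∑ z ∈ hfin.toFinset, volume (Icc (z.im - 3 * H) (z.im + 3 * H)) =
          ENNReal.ofReal (hfin.toFinset.card * (6 * H)) := by
        have h6 : ∀ z ∈ hfin.toFinset, volume (Icc (z.im - 3 * H) (z.im + 3 * H)) =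
            ENNReal.ofReal (6 * H) := by
          intro z _
          rw [Real.volume_Icc]
          congr 1
          ring
        rw [Finset.sum_congr rfl h6, Finset.sum_const, nsmul_eq_mul,
          ENNReal.ofReal_mul (Nat.cast_nonneg _), ENNReal.ofReal_natCast]
      have h6 := (measure_mono h3).trans (h4.trans h5.le)
      exact ENNReal.toReal_le_of_le_ofReal (by positivity) h6
    have hfinv : volume (Icc a (a + W')) ≠ ⊤ := by
      rw [Real.volume_Icc]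
      exact ENNReal.ofReal_ne_top
    have h3 : volume.real (Icc a (a + W') \ G) = volume.real (Icc a (a + W')) - volume.real G :=
      measureReal_sdiff hGs hGm hfinv
    rw [Real.volume_real_Icc_of_le (by linarith)] at h3
    have h4 : W' / 2 ≤ hfin.toFinset.card * (6 * H) := by linarith
    have h8 : ℓ ^ (A + 1) = H * ℓ := by
      rw [Real.rpow_add hℓ0, Real.rpow_one, ← hH]
    rw [h8, div_le_iff₀ (by positivity)]
    have h9 : (0 : ℝ) ≤ hfin.toFinset.card := Nat.cast_nonneg _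
    have h10 : (hfin.toFinset.card : ℝ) * (24 * H) ≤ hfin.toFinset.card * (H * ℓ) := by
      have : 24 * H ≤ H * ℓ := by nlinarith
      gcongr
    linarith
  · obtain ⟨Z, hZs, hZc⟩ := Set.Infinite.exists_subset_card_eq hfin ⌈W / ℓ ^ (A + 1)⌉₊
    refine ⟨Z, ?_, fun z hz => hExim z (hZs hz)⟩
    rw [hZc]
    exact Nat.le_ceil _

end Pool.Agent.H25.MZ
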