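import Pool.Agent.H25.MZ.All0
import Pool.Agent.H25.MZ.CO3
import Pool.Agent.H25.MZ.FI3
import Pool.Agent.H25.MZ.FG3
import Pool.Agent.H34.MZ.CL3
import Pool.Agent.H34.MZ.ZC
import Pool.Agent.H39.MZ.MS
import Pool.Agent.H77.MZ.RB
import Pool.Agent.H77.MZ.RO
import Pool.Agent.H77.MZ.YR

/-!
# Multiplicities: assembly
-/

set_option autoImplicit false

namespace Pool.Agent.H25.MZ

open Pool.Agent.H25.DL Pool.Agent.H25.HK

theorem T_CO3_proved : T_CO3 :=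
  co3 Pool.Agent.H39.MZ.ms Pool.Agent.H11.DL.le (Pool.Agent.H11.DL.ex Pool.Agent.H11.DL.tr)
    Pool.Agent.H11.DL.sh Pool.Agent.H92.DL.cn

theorem T_CL3_proved : T_CL3 :=
  Pool.Agent.H34.MZ.cl3 Pool.Agent.H77.MZ.rb (Pool.Agent.H77.MZ.ro Pool.Agent.H34.MZ.ZC)
    Pool.Agent.H62.DL.eu Pool.Agent.H62.DL.lb (Pool.Agent.H62.DL.fq Pool.Agent.H92.DL.yn)
    Pool.Agent.H62.DL.dg DL.T_PH_proved

theorem T_FI3_proved : T_FI3 :=
  fi3 T_CO3_proved T_CL3_proved (Pool.Agent.H77.MZ.yr DL.T_PH_proved Pool.Agent.H92.DL.yn)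

theorem T_FG3_proved : T_FG3 := fg3 T_FI3_proved

end Pool.Agent.H25.MZ
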