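import Pool.Agent.H25.MZ.Targets

/-!
# Equal densities: module C0 (the core)
-/

set_option autoImplicit false

open Complex MeasureTheory Set Filter Topology

namespace Pool.Agent.H25.MZ

open Pool.Agent.H25.DL Pool.Agent.H25.HK

/-- an oscillating integral -/
lemma osc (lam η a b : ℝ) (hl : lam ≠ 0) (ha : 0 < a) (hab : a ≤ b) (hb : b ≤ 2 * a) :
    ‖∫ u in a..b, cexp ((lam * u - η * Real.log u : ℝ) * I)‖ ≤ (2 + |η|) / |lam| := by
  have hl' : (lam : ℂ) ≠ 0 := by exact_mod_cast hl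
  have hlp : 0 < |lam| := abs_pos.2 hl
  have hpos : ∀ u ∈ uIcc a b, 0 < u := by
    intro u hu
    rw [uIcc_of_le hab] at hu
    linarith [hu.1]
  have hE : ContinuousOn (fun u : ℝ => cexp ((lam * u - η * Real.log u : ℝ) * I)) (uIcc a b) := by
    refine (Complex.continuous_exp.comp_continuousOn ?_)
    refine ContinuousOn.mul ?_ continuousOn_const
    refine Complex.continuous_ofReal.comp_continuousOn ?_
    refine ContinuousOn.sub (by fun_prop) ?_
    refine continuousOn_const.mul (Real.continuousOn_log.mono ?_)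
    intro u hu
    exact (hpos u hu).ne'
  have hG : ContinuousOn (fun u : ℝ => cexp ((lam * u - η * Real.log u : ℝ) * I) *
      ((η / (lam * u) : ℝ) : ℂ)) (uIcc a b) := by
    refine hE.mul ?_
    refine Complex.continuous_ofReal.comp_continuousOn ?_
    refine ContinuousOn.div continuousOn_const (by fun_prop) ?_
    intro u hu
    exact mul_ne_zero hl (hpos u hu).ne'
  have hder : ∀ u ∈ uIcc a b, HasDerivAt
      (fun u : ℝ => cexp ((lam * u - η * Real.log u : ℝ) * I) / (I * lam))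
      (cexp ((lam * u - η * Real.log u : ℝ) * I) -
        cexp ((lam * u - η * Real.log u : ℝ) * I) * ((η / (lam * u) : ℝ) : ℂ)) u := by
    intro u hu
    have hu0 := (hpos u hu).ne'
    have h1 : HasDerivAt (fun u : ℝ => lam * u - η * Real.log u) (lam - η * u⁻¹) u := by
      have h2 : HasDerivAt (fun u : ℝ => lam * u) lam u := by
        simpa using (hasDerivAt_id u).const_mul lam
      have h3 : HasDerivAt (fun u : ℝ => η * Real.log u) (η * u⁻¹) u :=
        (Real.hasDerivAt_log hu0).const_mul η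
      exact h2.sub h3
    have h3 := ((h1.ofReal_comp.mul_const I).cexp).div_const (I * lam)
    have hu' : (u : ℂ) ≠ 0 := by exact_mod_cast hu0
    refine h3.congr_deriv ?_
    push_cast
    field_simp
  have hFTC := intervalIntegral.integral_eq_sub_of_hasDerivAt hder
    (hE.sub hG).intervalIntegrable
  rw [intervalIntegral.integral_sub hE.intervalIntegrable hG.intervalIntegrable] at hFTC
  have hval := eq_add_of_sub_eq hFTC
  rw [hval]
  have hn : ∀ u : ℝ, ‖cexp ((lam * u - η * Real.log u : ℝ) * I) / (I * lam)‖ = 1 / |lam| := by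
    intro u
    rw [norm_div, Complex.norm_exp_ofReal_mul_I, norm_mul, Complex.norm_I, one_mul,
      Complex.norm_real, Real.norm_eq_abs]
  have h1 : ‖∫ u in a..b, cexp ((lam * u - η * Real.log u : ℝ) * I) *
      ((η / (lam * u) : ℝ) : ℂ)‖ ≤ |η| / |lam| := by
    have h2 := intervalIntegral.norm_integral_le_of_norm_le_const (a := a) (b := b)
      (C := |η| / (|lam| * a)) (f := fun u : ℝ => cexp ((lam * u - η * Real.log u : ℝ) * I) *
      ((η / (lam * u) : ℝ) : ℂ)) ?_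
    · refine h2.trans ?_
      rw [abs_of_nonneg (by linarith : 0 ≤ b - a)]
      rw [div_mul_eq_mul_div, div_le_div_iff₀ (by positivity) hlp]
      have h3 : b - a ≤ a := by linarith
      have h4 : 0 ≤ |η| * |lam| := by positivity
      nlinarith [abs_nonneg η]
    · intro u hu
      rw [uIoc_of_le hab] at hu
      have hu0 : 0 < u := by linarith [hu.1]
      rw [norm_mul, Complex.norm_exp_ofReal_mul_I, one_mul, Complex.norm_real, Real.norm_eq_abs,
        abs_div, abs_mul, abs_of_pos hu0]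
      have : a ≤ u := hu.1.le
      gcongr
  calc ‖cexp ((lam * b - η * Real.log b : ℝ) * I) / (I * lam) -
        cexp ((lam * a - η * Real.log a : ℝ) * I) / (I * lam) +
        ∫ u in a..b, cexp ((lam * u - η * Real.log u : ℝ) * I) * ((η / (lam * u) : ℝ) : ℂ)‖
      ≤ (‖cexp ((lam * b - η * Real.log b : ℝ) * I) / (I * lam)‖ +
        ‖cexp ((lam * a - η * Real.log a : ℝ) * I) / (I * lam)‖) + |η| / |lam| :=
        (norm_add_le _ _).trans (add_le_add (norm_sub_le _ _) h1)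
    _ = (2 + |η|) / |lam| := by
        rw [hn, hn]
        ring

variable {ι : Type} [Fintype ι]

lemma fr_nonneg (f : ι → Fac) (z : ι → ℕ) : 0 ≤ fr f z := by
  unfold fr
  refine Finset.sum_nonneg fun l _ => mul_nonneg (f l).r_pos.le (Real.log_natCast_nonneg _)

/-- the multiplier -/
noncomputable def mw (κ : ℂ) (η δ : ℝ) (u : ℝ) : ℂ :=
  (starRingEnd ℂ) κ * cexp ((δ * u - η * Real.log u : ℝ) * I)

lemma norm_mw {κ : ℂ} (hκ : ‖κ‖ = 1) (η δ u : ℝ) : ‖mw κ η δ u‖ = 1 := by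
  unfold mw
  rw [norm_mul, Complex.norm_exp_ofReal_mul_I, mul_one]
  simpa using hκ

lemma kA_mul (f : ι → Fac) {κ : ℂ} (hκ : ‖κ‖ = 1) (B η β ν : ℝ) (Z : Finset (ι → ℕ)) (u : ℝ) :
    kA f κ B η β Z u * mw κ η (ν - B) u = ∑ z ∈ Z, (cz f z *
      Real.exp (-((B - fr f z) * β) ^ 2 / 4)) * cexp (((ν - fr f z) * u - 0 * Real.log u : ℝ) * I) := by
  unfold kA mw
  have h1 : κ * (starRingEnd ℂ) κ = 1 := by
    rw [Complex.mul_conj, Complex.normSq_eq_norm_sq, hκ]
    norm_num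
  have h2 : κ * cexp ((η * Real.log u : ℝ) * I) * (∑ z ∈ Z, cz f z *
      cexp (((B - fr f z) * u : ℝ) * I) * Real.exp (-((B - fr f z) * β) ^ 2 / 4)) *
      ((starRingEnd ℂ) κ * cexp (((ν - B) * u - η * Real.log u : ℝ) * I)) =
      (κ * (starRingEnd ℂ) κ) * ∑ z ∈ Z, (cz f z * Real.exp (-((B - fr f z) * β) ^ 2 / 4)) *
        (cexp ((η * Real.log u : ℝ) * I) * cexp (((B - fr f z) * u : ℝ) * I) *
          cexp (((ν - B) * u - η * Real.log u : ℝ) * I)) := by
    rw [Finset.mul_sum, Finset.sum_mul, Finset.mul_sum]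
    exact Finset.sum_congr rfl fun z _ => by ring
  rw [h2, h1, one_mul]
  refine Finset.sum_congr rfl fun z _ => ?_
  congr 1
  rw [← Complex.exp_add, ← Complex.exp_add]
  congr 1
  push_cast
  ring

lemma lA_mul (f : ι → Fac) (κ : ℂ) (η β δ : ℝ) (Z : Finset (ι → ℕ)) (u : ℝ) :
    lA f β Z u * mw κ η δ u = ∑ z ∈ Z, ((starRingEnd ℂ) κ * (starRingEnd ℂ) (cz f z) *
      Real.exp (-(fr f z * β) ^ 2 / 4)) * cexp (((fr f z + δ) * u - η * Real.log u : ℝ) * I) := by
  unfold lA mw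
  rw [Finset.sum_mul]
  refine Finset.sum_congr rfl fun z _ => ?_
  have h1 : cexp (((fr f z + δ) * u - η * Real.log u : ℝ) * I) =
      cexp ((fr f z * u : ℝ) * I) * cexp ((δ * u - η * Real.log u : ℝ) * I) := by
    rw [← Complex.exp_add]
    congr 1
    push_cast
    ring
  rw [h1]
  ring

lemma continuousOn_osc (lam η : ℝ) :
    ContinuousOn (fun u : ℝ => cexp ((lam * u - η * Real.log u : ℝ) * I)) (Ioi 0) := by
  refine (Complex.continuous_exp.comp_continuousOn ?_)
  refine ContinuousOn.mul ?_ continuousOn_const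
  refine Complex.continuous_ofReal.comp_continuousOn ?_
  refine ContinuousOn.sub (by fun_prop) ?_
  refine continuousOn_const.mul (Real.continuousOn_log.mono ?_)
  intro u hu
  exact (ne_of_gt hu)

lemma norm_gauss_le (x : ℝ) : ‖((Real.exp (-x ^ 2 / 4) : ℝ) : ℂ)‖ ≤ 1 := by
  rw [Complex.norm_real, Real.norm_eq_abs, abs_of_pos (Real.exp_pos _)]
  apply Real.exp_le_one_iff.2
  have := sq_nonneg x
  linarith

lemma norm_kA_le (f : ι → Fac) {κ : ℂ} (hκ : ‖κ‖ = 1) (B η β : ℝ) (Z : Finset (ι → ℕ)) (u : ℝ) :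
    ‖kA f κ B η β Z u‖ ≤ ∑ z ∈ Z, ‖cz f z‖ := by
  unfold kA
  rw [norm_mul, norm_mul, hκ, Complex.norm_exp_ofReal_mul_I, one_mul, one_mul]
  refine (norm_sum_le _ _).trans (Finset.sum_le_sum fun z _ => ?_)
  rw [norm_mul, norm_mul, Complex.norm_exp_ofReal_mul_I, mul_one]
  exact mul_le_of_le_one_right (norm_nonneg _) (norm_gauss_le _)

lemma norm_lA_le (f : ι → Fac) (β : ℝ) (Z : Finset (ι → ℕ)) (u : ℝ) :
    ‖lA f β Z u‖ ≤ ∑ z ∈ Z, ‖cz f z‖ := by
  unfold lA
  refine (norm_sum_le _ _).trans (Finset.sum_le_sum fun z _ => ?_)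
  rw [norm_mul, norm_mul, Complex.norm_exp_ofReal_mul_I, mul_one, Complex.norm_conj]
  exact mul_le_of_le_one_right (norm_nonneg _) (norm_gauss_le _)

/-- the sum over a large finite set is the coefficient -/
lemma sum_eq_co (f : ι → Fac) (ν : ℝ) (hco : co f ν ≠ 0) :
    ∃ Z₀ : Finset (ι → ℕ), (∀ z ∈ Z₀, ∀ l, 1 ≤ z l) ∧ ∀ Z : Finset (ι → ℕ), Z₀ ⊆ Z →
      (∀ z ∈ Z, ∀ l, 1 ≤ z l) → ∑ z ∈ Z.filter (fun z => fr f z = ν), cz f z = co f ν := by
  classical
  have hfin : (tup f ν ∩ Function.support (cz f)).Finite := by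
    by_contra h
    exact hco (finsum_mem_eq_zero_of_infinite h)
  refine ⟨hfin.toFinset, ?_, ?_⟩
  · intro z hz
    exact ((hfin.mem_toFinset.1 hz).1).1
  · intro Z hZ hZ1
    unfold co
    rw [finsum_mem_eq_sum _ hfin]
    symm
    apply Finset.sum_subset
    · intro z hz
      rw [Finset.mem_filter]
      exact ⟨hZ hz, ((hfin.mem_toFinset.1 hz).1).2⟩
    · intro z hz hz'
      rw [Finset.mem_filter] at hz
      by_contra h0
      apply hz'
      rw [hfin.mem_toFinset]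
      exact ⟨⟨hZ1 z hz.1, hz.2⟩, h0⟩

/-- (C0) -/
theorem c0 (hSHE : T_SHE) (hLL : T_LL0) (hKK : T_KK0) : T_C0 := by
  intro ι _ f Y κ B η t₀ ν hP hBν hco
  classical
  obtain ⟨β₁, hβ₁, hLL⟩ := hLL ι f
  obtain ⟨β₂, hβ₂, hKK⟩ := hKK ι f Y κ B η t₀ hP
  refine ⟨max β₁ β₂, lt_max_of_lt_left hβ₁, fun β hβ C => ?_⟩
  have hβ0 : 0 < β := hβ₁.trans_le ((le_max_left _ _).trans hβ)
  obtain ⟨g, hg⟩ : ∃ g : ℝ, g = Real.exp (-((B - ν) * β) ^ 2 / 4) := ⟨_, rfl⟩
  have hg0 : 0 < g := by rw [hg]; exact Real.exp_pos _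
  obtain ⟨γ, hγ⟩ : ∃ γ : ℝ, γ = ‖co f ν‖ * g := ⟨_, rfl⟩
  have hγ0 : 0 < γ := by rw [hγ]; exact mul_pos (norm_pos_iff.2 hco) hg0
  obtain ⟨Z₁, hZ₁p, hLL⟩ := hLL β ((le_max_left _ _).trans hβ) (γ / 12) (by positivity)
  obtain ⟨Z₂, hZ₂p, hKK⟩ := hKK β ((le_max_right _ _).trans hβ) (γ / 12) (by positivity)
  obtain ⟨Z₀, hZ₀p, hZ₀⟩ := sum_eq_co f ν hco
  obtain ⟨Z, hZ⟩ : ∃ Z : Finset (ι → ℕ), Z = Z₁ ∪ (Z₂ ∪ Z₀) := ⟨_, rfl⟩
  have hZp : ∀ z ∈ Z, ∀ l, 1 ≤ z l := by
    intro z hz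
    rw [hZ, Finset.mem_union, Finset.mem_union] at hz
    rcases hz with hz | hz | hz
    · exact hZ₁p z hz
    · exact hZ₂p z hz
    · exact hZ₀p z hz
  obtain ⟨R₀, hLL⟩ := hLL Z (by rw [hZ]; exact Finset.subset_union_left) hZp
  obtain ⟨T₁, hKK⟩ := hKK Z (by
    rw [hZ]
    exact Finset.subset_union_left.trans Finset.subset_union_right) hZp
  have hsum := hZ₀ Z (by
    rw [hZ]
    exact Finset.subset_union_right.trans Finset.subset_union_right) hZp
  obtain ⟨T₂, hSH⟩ := hSHE ι f Y β C (γ / 12) hβ0 (by positivity)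
  -- constants
  obtain ⟨M, hM⟩ : ∃ M : ℝ, M = 2 * (∑ z ∈ Z, ‖cz f z‖) + 1 := ⟨_, rfl⟩
  have hS0 : 0 ≤ ∑ z ∈ Z, ‖cz f z‖ := Finset.sum_nonneg fun z _ => norm_nonneg _
  have hM0 : 0 < M := by rw [hM]; linarith
  obtain ⟨k1, hk1⟩ : ∃ k1 : (ι → ℕ) → ℝ, k1 = fun z => if fr f z = ν then 0 else
    (2 + |(0 : ℝ)|) / |ν - fr f z| := ⟨_, rfl⟩
  obtain ⟨k2, hk2⟩ : ∃ k2 : (ι → ℕ) → ℝ, k2 = fun z => (2 + |η|) / |fr f z + (ν - B)| := ⟨_, rfl⟩
  have hk10 : ∀ z, 0 ≤ k1 z := by
    intro z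
    rw [hk1]
    dsimp only
    split_ifs <;> positivity
  have hk20 : ∀ z, 0 ≤ k2 z := by
    intro z
    rw [hk2]
    positivity
  obtain ⟨C₁, hC₁⟩ : ∃ C₁ : ℝ, C₁ = (∑ z ∈ Z, ‖cz f z‖ * k1 z) + (∑ z ∈ Z, ‖cz f z‖ * k2 z) + 1 :=
    ⟨_, rfl⟩
  have hC₁0 : 0 < C₁ := by
    rw [hC₁]
    have h1 : 0 ≤ ∑ z ∈ Z, ‖cz f z‖ * k1 z :=
      Finset.sum_nonneg fun z _ => mul_nonneg (norm_nonneg _) (hk10 z)
    have h2 : 0 ≤ ∑ z ∈ Z, ‖cz f z‖ * k2 z :=
      Finset.sum_nonneg fun z _ => mul_nonneg (norm_nonneg _) (hk20 z)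
    linarith
  obtain ⟨c, hc⟩ : ∃ c : ℝ, c = min (γ / (2 * M)) (γ / (4 * C₁)) := ⟨_, rfl⟩
  have hc0 : 0 < c := by rw [hc]; exact lt_min (by positivity) (by positivity)
  obtain ⟨T₀, hT₀⟩ := eventually_atTop.1 ((Real.tendsto_log_atTop.eventually_ge_atTop R₀).and
    ((eventually_ge_atTop T₁).and ((eventually_ge_atTop T₂).and (eventually_ge_atTop (1 : ℝ)))))
  refine ⟨c, T₀, hc0, fun T hT a W haT haW hW G hGm hG hclean => ?_⟩
  obtain ⟨hR, hT1, hT2, hT11⟩ := hT₀ T hT
  have ha0 : 0 < a := by linarith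
  have hW0 : 0 < W := (inv_pos.2 hc0).trans_le hW
  have hWC : 4 * C₁ ≤ γ * W := by
    have h1 : c ≤ γ / (4 * C₁) := by rw [hc]; exact min_le_right _ _
    have h2 : 1 ≤ c * W := by
      have := mul_le_mul_of_nonneg_left hW hc0.le
      rwa [mul_inv_cancel₀ hc0.ne'] at this
    have h3 : 1 ≤ γ / (4 * C₁) * W := h2.trans (by gcongr)
    rw [div_mul_eq_mul_div, le_div_iff₀ (by positivity)] at h3
    linarith
  have hsubI : Icc a (a + W) ⊆ Icc T (2 * T) := Icc_subset_Icc haT haW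
  obtain ⟨Φ, hΦ⟩ : ∃ Φ : ℝ → ℂ, Φ = fun u => (kA f κ B η β Z u - lA f β Z u) *
    mw κ η (ν - B) u := ⟨_, rfl⟩
  have hΦM : ∀ u, ‖Φ u‖ ≤ M := by
    intro u
    rw [hΦ]
    dsimp only
    rw [norm_mul, norm_mw hP.norm_κ, mul_one]
    refine (norm_sub_le _ _).trans ?_
    have h1 := norm_kA_le f hP.norm_κ B η β Z u
    have h2 := norm_lA_le f β Z u
    rw [hM]
    linarith
  have hΦG : ∀ u ∈ G, ‖Φ u‖ ≤ γ / 4 := by
    intro u hu
    have h1 := hLL (Real.log T) hR u
    have h2 := hKK T hT1 u (hsubI (hG hu))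
    have h3 := hSH T hT2 u (hsubI (hG hu)) (hclean u hu)
    rw [hΦ]
    dsimp only
    rw [norm_mul, norm_mw hP.norm_κ, mul_one]
    have e : kA f κ B η β Z u - lA f β Z u = -(KK f Y β (Real.log T) u - kA f κ B η β Z u) +
        (KK f Y β (Real.log T) u - LL f β (Real.log T) u) +
        (LL f β (Real.log T) u - lA f β Z u) := by ring
    rw [e]
    have h4 := norm_add_le (-(KK f Y β (Real.log T) u - kA f κ B η β Z u) +
        (KK f Y β (Real.log T) u - LL f β (Real.log T) u))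
        (LL f β (Real.log T) u - lA f β Z u)
    have h5 := norm_add_le (-(KK f Y β (Real.log T) u - kA f κ B η β Z u))
        (KK f Y β (Real.log T) u - LL f β (Real.log T) u)
    rw [norm_neg] at h5
    linarith
  -- expansion
  have hexp : ∀ u, Φ u = (∑ z ∈ Z, (cz f z *
      Real.exp (-((B - fr f z) * β) ^ 2 / 4)) *
        cexp (((ν - fr f z) * u - 0 * Real.log u : ℝ) * I)) -
      ∑ z ∈ Z, ((starRingEnd ℂ) κ * (starRingEnd ℂ) (cz f z) *
      Real.exp (-(fr f z * β) ^ 2 / 4)) *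
        cexp (((fr f z + (ν - B)) * u - η * Real.log u : ℝ) * I) := by
    intro u
    rw [hΦ]
    dsimp only
    rw [sub_mul, kA_mul f hP.norm_κ, lA_mul]
  have hcI : ∀ lam η' : ℝ, IntervalIntegrable
      (fun u : ℝ => cexp ((lam * u - η' * Real.log u : ℝ) * I)) volume a (a + W) := by
    intro lam η'
    refine ((continuousOn_osc lam η').mono ?_).intervalIntegrable
    intro u hu
    rw [uIcc_of_le (by linarith)] at hu
    exact lt_of_lt_of_le ha0 hu.1
  have hi1 : IntervalIntegrable (fun u : ℝ => ∑ z ∈ Z, (cz f z *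
      Real.exp (-((B - fr f z) * β) ^ 2 / 4)) *
        cexp (((ν - fr f z) * u - 0 * Real.log u : ℝ) * I)) volume a (a + W) := by
    rw [← Finset.sum_fn]
    exact IntervalIntegrable.sum _ fun z _ => (hcI _ _).const_mul _
  have hi2 : IntervalIntegrable (fun u : ℝ => ∑ z ∈ Z, ((starRingEnd ℂ) κ *
      (starRingEnd ℂ) (cz f z) * Real.exp (-(fr f z * β) ^ 2 / 4)) *
        cexp (((fr f z + (ν - B)) * u - η * Real.log u : ℝ) * I)) volume a (a + W) := by
    rw [← Finset.sum_fn]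
    exact IntervalIntegrable.sum _ fun z _ => (hcI _ _).const_mul _
  have hΦfun : Φ = fun u => (∑ z ∈ Z, (cz f z *
      Real.exp (-((B - fr f z) * β) ^ 2 / 4)) *
        cexp (((ν - fr f z) * u - 0 * Real.log u : ℝ) * I)) -
      ∑ z ∈ Z, ((starRingEnd ℂ) κ * (starRingEnd ℂ) (cz f z) *
      Real.exp (-(fr f z * β) ^ 2 / 4)) *
        cexp (((fr f z + (ν - B)) * u - η * Real.log u : ℝ) * I) := funext hexp
  have hΦi : IntervalIntegrable Φ volume a (a + W) := by
    rw [hΦfun]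
    exact hi1.sub hi2
  have hΦint : ∫ u in a..(a + W), Φ u = (∑ z ∈ Z, (cz f z *
      Real.exp (-((B - fr f z) * β) ^ 2 / 4)) *
        ∫ u in a..(a + W), cexp (((ν - fr f z) * u - 0 * Real.log u : ℝ) * I)) -
      ∑ z ∈ Z, ((starRingEnd ℂ) κ * (starRingEnd ℂ) (cz f z) *
      Real.exp (-(fr f z * β) ^ 2 / 4)) *
        ∫ u in a..(a + W), cexp (((fr f z + (ν - B)) * u - η * Real.log u : ℝ) * I) := by
    rw [hΦfun]
    rw [intervalIntegral.integral_sub hi1 hi2,
      intervalIntegral.integral_finsetSum fun z _ => (hcI _ _).const_mul _,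
      intervalIntegral.integral_finsetSum fun z _ => (hcI _ _).const_mul _]
    congr 1 <;>
    exact Finset.sum_congr rfl fun z _ => intervalIntegral.integral_const_mul _ _
  -- lower bound
  have hmain : ‖(∫ u in a..(a + W), Φ u) - W * (g * co f ν)‖ ≤ C₁ := by
    have h0 : (W : ℂ) * (g * co f ν) = ∑ z ∈ Z, if fr f z = ν then
        (cz f z * Real.exp (-((B - fr f z) * β) ^ 2 / 4)) * W else 0 := by
      rw [← hsum, ← Finset.sum_filter, Finset.mul_sum, Finset.mul_sum]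
      refine Finset.sum_congr rfl fun z hz => ?_
      rw [Finset.mem_filter] at hz
      rw [hz.2, ← hg]
      ring
    rw [hΦint, h0, sub_right_comm, ← Finset.sum_sub_distrib]
    refine (norm_sub_le _ _).trans ?_
    rw [hC₁]
    have h1 : ‖∑ z ∈ Z, ((cz f z * Real.exp (-((B - fr f z) * β) ^ 2 / 4)) *
        (∫ u in a..(a + W), cexp (((ν - fr f z) * u - 0 * Real.log u : ℝ) * I)) -
        if fr f z = ν then (cz f z * Real.exp (-((B - fr f z) * β) ^ 2 / 4)) * (W : ℂ) else 0)‖ ≤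
        ∑ z ∈ Z, ‖cz f z‖ * k1 z := by
      refine (norm_sum_le _ _).trans (Finset.sum_le_sum fun z _ => ?_)
      by_cases hz : fr f z = ν
      · rw [if_pos hz]
        have h2 : ∫ u in a..(a + W), cexp (((ν - fr f z) * u - 0 * Real.log u : ℝ) * I) = W := by
          have h3 : ∀ u : ℝ, cexp (((ν - fr f z) * u - 0 * Real.log u : ℝ) * I) = 1 := by
            intro u
            rw [hz]
            simp
          simp_rw [h3]
          simp
        rw [h2, sub_self, norm_zero]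
        exact mul_nonneg (norm_nonneg _) (hk10 z)
      · rw [if_neg hz, sub_zero, norm_mul, norm_mul]
        have h2 := osc (ν - fr f z) 0 a (a + W) (sub_ne_zero.2 (Ne.symm hz)) ha0 (by linarith)
          (by linarith)
        have h3 : k1 z = (2 + |(0 : ℝ)|) / |ν - fr f z| := by rw [hk1]; exact if_neg hz
        rw [h3]
        refine mul_le_mul ?_ h2 (norm_nonneg _) (norm_nonneg _)
        exact mul_le_of_le_one_right (norm_nonneg _) (norm_gauss_le _)
    have h2 : ‖∑ z ∈ Z, ((starRingEnd ℂ) κ * (starRingEnd ℂ) (cz f z) *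
        Real.exp (-(fr f z * β) ^ 2 / 4)) *
        ∫ u in a..(a + W), cexp (((fr f z + (ν - B)) * u - η * Real.log u : ℝ) * I)‖ ≤
        ∑ z ∈ Z, ‖cz f z‖ * k2 z := by
      refine (norm_sum_le _ _).trans (Finset.sum_le_sum fun z _ => ?_)
      have h4 : fr f z + (ν - B) ≠ 0 := by
        have := fr_nonneg f z
        linarith
      have h5 := osc (fr f z + (ν - B)) η a (a + W) h4 ha0 (by linarith) (by linarith)
      rw [norm_mul, hk2]
      refine mul_le_mul ?_ h5 (norm_nonneg _) (norm_nonneg _)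
      rw [norm_mul, norm_mul, Complex.norm_conj, Complex.norm_conj, hP.norm_κ, one_mul]
      exact mul_le_of_le_one_right (norm_nonneg _) (norm_gauss_le _)
    linarith
  have hlow : γ * W - C₁ ≤ ‖∫ u in a..(a + W), Φ u‖ := by
    have h1 : ‖(W : ℂ) * (g * co f ν)‖ = γ * W := by
      rw [norm_mul, norm_mul, Complex.norm_real, Complex.norm_real, Real.norm_eq_abs,
        Real.norm_eq_abs, abs_of_pos hW0, abs_of_pos hg0, hγ]
      ring
    have h2 := norm_sub_norm_le ((W : ℂ) * (g * co f ν)) (∫ u in a..(a + W), Φ u)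
    rw [h1, norm_sub_rev] at h2
    linarith
  -- upper bound
  obtain ⟨E, hE⟩ : ∃ E : Set ℝ, E = Icc a (a + W) \ G := ⟨_, rfl⟩
  rw [← hE]
  have hEm : MeasurableSet E := by rw [hE]; exact measurableSet_Icc.diff hGm
  have hEs : E ⊆ Icc a (a + W) := by rw [hE]; exact sdiff_subset
  have hfin : volume (Icc a (a + W)) ≠ ⊤ := by rw [Real.volume_Icc]; exact ENNReal.ofReal_ne_top
  have hΦon : IntegrableOn Φ (Icc a (a + W)) := by
    rw [intervalIntegrable_iff_integrableOn_Icc_of_le (by linarith)] at hΦi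
    exact hΦi
  have hup : ‖∫ u in a..(a + W), Φ u‖ ≤ γ / 4 * W + M * volume.real E := by
    have h1 : ∫ u in a..(a + W), Φ u = (∫ u in G, Φ u) + ∫ u in E, Φ u := by
      rw [intervalIntegral.integral_of_le (by linarith), ← integral_Icc_eq_integral_Ioc]
      have h1 : Icc a (a + W) = G ∪ E := by
        rw [hE, union_sdiff_cancel hG]
      have h2 : Disjoint G E := by rw [hE]; exact disjoint_sdiff_right
      rw [h1]
      exact setIntegral_union h2 hEm (hΦon.mono_set hG) (hΦon.mono_set hEs)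
    rw [h1]
    refine (norm_add_le _ _).trans (add_le_add ?_ ?_)
    · have h2 : ‖∫ u in G, Φ u‖ ≤ γ / 4 * volume.real G :=
        norm_setIntegral_le_of_norm_le_const
          ((measure_mono hG).trans_lt (lt_top_iff_ne_top.2 hfin)) hΦG
      refine h2.trans ?_
      have h3 : volume.real G ≤ W := by
        have h4 := measureReal_mono hG hfin
        rw [Real.volume_real_Icc_of_le (by linarith)] at h4
        linarith
      gcongr
    · exact norm_setIntegral_le_of_norm_le_const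
        ((measure_mono hEs).trans_lt (lt_top_iff_ne_top.2 hfin)) fun u _ => hΦM u
  have h1 : γ / 2 * W ≤ M * volume.real E := by linarith
  have h2 : c ≤ γ / (2 * M) := by rw [hc]; exact min_le_left _ _
  calc c * W ≤ γ / (2 * M) * W := by gcongr
    _ = (γ / 2 * W) / M := by field_simp
    _ ≤ volume.real E := by
        rw [div_le_iff₀ hM0]
        linarith

end Pool.Agent.H25.MZ
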