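import Pool.Agent.H25.MZ.Targets
import Pool.Agent.H25.HK.Mem
import Pool.Agent.H48.DL.DI

/-!
# Equal densities: module DI2 (Dirichlet `L`-functions with their coefficients)
-/

set_option autoImplicit false

open Complex MeasureTheory Set DirichletCharacter

namespace Pool.Agent.H25.MZ

open Pool.Agent.H25.DL Pool.Agent.H23.GLH Pool.Agent.H25.HK

/-- (DI) with the coefficients -/
theorem di3 (π : PrimChar) : ∃ L : LF, L.n = 1 ∧ L.num = π.L ∧ (L.den = fun _ => 1) ∧
    ∀ m : ℕ, ∑ j, L.h j m = if m = 0 then 0 else π.χ (m : ZMod π.q) := by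
  have := π.q_ne
  have hq : (0 : ℝ) < π.q := Nat.cast_pos.mpr (NeZero.pos π.q)
  obtain ⟨ε, κ, hε, hκ, hLF⟩ := Pool.Agent.H15.LI.lf π
  have hε0 : ε ≠ 0 := by
    intro h
    rw [h, norm_zero] at hε
    exact zero_ne_one hε
  have hpoly := Pool.Agent.H33.LI.pb Pool.Agent.H15.LI.lf
  refine ⟨{
    n := 1
    h := fun _ m => if m = 0 then 0 else π.χ (m : ZMod π.q)
    h_zero := fun _ => by simp
    h_one := fun _ => by simp
    h_mul := fun _ a b => by
      by_cases ha : a = 0
      · simp [ha]
      by_cases hb : b = 0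
      · simp [hb]
      simp [ha, hb]
    h_le := fun _ a => by
      by_cases ha : a = 0
      · simp [ha]
      · simp only [ha, if_false]
        exact norm_le_one π.χ _
    κ := fun _ => κ
    κ_mem := fun _ => hκ
    A := π.q
    A_pos := hq
    ε := ε⁻¹
    norm_ε := by rw [norm_inv, hε, inv_one]
    num := π.L
    den := fun _ => 1
    diff := fun s hs => by
      refine ⟨differentiableAt_LFunction _ _ (Or.inl ?_), differentiableAt_const _⟩
      rintro rfl
      simp at hs
    growth := fun b => by
      obtain ⟨C, hC, h⟩ := hpoly π b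
      refine ⟨C * 2 ^ C + C + 1, by positivity, fun s hs1 hs2 => ⟨?_, ?_⟩⟩
      · have him : |s.im| = s.im := abs_of_pos (by linarith)
        have h1 := h s (by linarith [(abs_le.1 hs1).1]) (by rw [him]; exact hs2)
        rw [him] at h1
        have h2 : (1 + s.im) ^ C ≤ (2 * s.im) ^ C :=
          Real.rpow_le_rpow (by linarith) (by linarith) hC.le
        rw [Real.mul_rpow (by norm_num) (by linarith)] at h2
        have h3 : s.im ^ C ≤ s.im ^ (C * 2 ^ C + C + 1) := by
          apply Real.rpow_le_rpow_of_exponent_le hs2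
          have : 0 < C * 2 ^ C := by positivity
          linarith
        have h4 : 0 ≤ s.im ^ (C * 2 ^ C + C + 1) := Real.rpow_nonneg (by linarith) _
        calc ‖π.L s‖ ≤ C * (1 + s.im) ^ C := h1
          _ ≤ C * (2 ^ C * s.im ^ C) := by gcongr
          _ ≤ C * (2 ^ C * s.im ^ (C * 2 ^ C + C + 1)) := by gcongr
          _ ≤ (C * 2 ^ C + C + 1) * s.im ^ (C * 2 ^ C + C + 1) := by
            nlinarith
      · rw [norm_one]
        have h5 : (1 : ℝ) ≤ C * 2 ^ C + C + 1 := by
          have : 0 < C * 2 ^ C := by positivity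
          linarith
        have h6 : (1 : ℝ) ≤ s.im ^ (C * 2 ^ C + C + 1) :=
          Real.one_le_rpow hs2 (by linarith)
        nlinarith
    den_ne := fun s _ _ => one_ne_zero
    den_ge := ⟨1, one_pos, fun s _ _ => by simp⟩
    series := fun s hs _ => by
      rw [one_mul, Fin.prod_univ_one]
      change LFunction π.χ s = _
      rw [LFunction_eq_LSeries π.χ hs]
      unfold LSeries
      congr 1
      funext m
      rcases eq_or_ne m 0 with rfl | hm
      · simp
      · rw [LSeries.term_of_ne_zero hm, if_neg hm, cpow_neg, div_eq_mul_inv]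
    fe := fun s hs => by
      have hs0 : s.im ≠ 0 := hs.ne'
      have h1 := hLF s hs0
      have h2 : (Pool.Agent.H74.LI.bar π).L (1 - s) =
          (starRingEnd ℂ) (π.L (1 - (starRingEnd ℂ) s)) := by
        have hne : 1 - (starRingEnd ℂ) s ≠ 1 := by
          intro h
          have := congrArg Complex.im h
          simp at this
          exact hs0 this
        have h3 := LFunction_conj π.χ hne
        rw [map_sub, map_one, conj_conj] at h3
        exact h3
      rw [Fin.prod_univ_one, map_one, mul_one, mul_one]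
      rw [h2] at h1
      calc π.L s * (ε⁻¹ * cexp ((s - 1 / 2) * Real.log π.q) *
            (Gammaℂ s * Complex.cos (Real.pi * (s - κ) / 2)))
          = ε⁻¹ * cexp ((s - 1 / 2) * Real.log π.q) *
            (π.L s * (Gammaℂ s * Complex.cos (Real.pi * (s - κ) / 2))) := by ring
        _ = (ε⁻¹ * ε) * (cexp ((s - 1 / 2) * Real.log π.q) * cexp ((1 / 2 - s) * Real.log π.q)) *
            (starRingEnd ℂ) (π.L (1 - (starRingEnd ℂ) s)) := by rw [h1]; ring
        _ = _ := by
          rw [inv_mul_cancel₀ hε0, ← Complex.exp_add]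
          have : (s - 1 / 2) * (Real.log π.q : ℂ) + (1 / 2 - s) * Real.log π.q = 0 := by ring
          rw [this, Complex.exp_zero, one_mul, one_mul] }, rfl, rfl, rfl, fun m => ?_⟩
  exact Fin.sum_univ_one _


lemma not_summable_of_finite_diff (A B : Set ℕ)
    (hA : ¬ Summable (fun p : A => (1 : ℝ) / ((p : ℕ) : ℝ))) (hfin : (A \ B).Finite) :
    ¬ Summable (fun p : B => (1 : ℝ) / ((p : ℕ) : ℝ)) := by
  intro hB
  apply hA
  have h1 : Summable (B.indicator fun n : ℕ => (1 : ℝ) / (n : ℝ)) :=
    (summable_subtype_iff_indicator (f := fun n : ℕ => (1 : ℝ) / (n : ℝ))).1 hB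
  have h2 : Summable ((A \ B).indicator fun n : ℕ => (1 : ℝ) / (n : ℝ)) := by
    refine summable_of_finite_support (hfin.subset ?_)
    intro x hx
    exact Set.mem_of_indicator_ne_zero hx
  have h3 : Summable (A.indicator fun n : ℕ => (1 : ℝ) / (n : ℝ)) := by
    refine Summable.of_nonneg_of_le (fun n => ?_) (fun n => ?_) (h1.add h2)
    · exact Set.indicator_nonneg (fun x _ => by positivity) n
    · by_cases hA' : n ∈ A
      · by_cases hB' : n ∈ B
        · rw [Set.indicator_of_mem hA', Set.indicator_of_mem hB']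
          have : 0 ≤ (A \ B).indicator (fun n : ℕ => (1 : ℝ) / (n : ℝ)) n :=
            Set.indicator_nonneg (fun x _ => by positivity) n
          linarith
        · rw [Set.indicator_of_mem hA', Set.indicator_of_notMem hB',
            Set.indicator_of_mem (show n ∈ A \ B from ⟨hA', hB'⟩), zero_add]
      · rw [Set.indicator_of_notMem hA']
        have e1 : 0 ≤ B.indicator (fun n : ℕ => (1 : ℝ) / (n : ℝ)) n :=
          Set.indicator_nonneg (fun x _ => by positivity) n
        have e2 : 0 ≤ (A \ B).indicator (fun n : ℕ => (1 : ℝ) / (n : ℝ)) n :=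
          Set.indicator_nonneg (fun x _ => by positivity) n
        linarith
  exact (summable_subtype_iff_indicator (f := fun n : ℕ => (1 : ℝ) / (n : ℝ))).2 h3

lemma not_summable_primes : ¬ Summable (fun p : {p : ℕ | p.Prime} => (1 : ℝ) / ((p : ℕ) : ℝ)) := by
  intro h
  exact not_summable_one_div_on_primes
    ((summable_subtype_iff_indicator (f := fun n : ℕ => (1 : ℝ) / (n : ℝ))).1 h)

/-- (DI2) -/
theorem di2 : T_DI2 := by
  intro π
  have := π.q_ne
  obtain ⟨L, hn, hnum, hden, hh⟩ := di3 π
  refine ⟨L, hn, ?_, fun z hz => ?_⟩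
  · refine not_summable_of_finite_diff {p : ℕ | p.Prime} {p : ℕ | p.Prime ∧ ∑ j, L.h j p ≠ 0}
      not_summable_primes ?_
    refine (Set.finite_le_nat π.q).subset ?_
    rintro p ⟨hp, hp2⟩
    have hp' : p.Prime := hp
    have h0 : ∑ j, L.h j p = 0 := by
      by_contra h
      exact hp2 ⟨hp, h⟩
    rw [hh, if_neg hp'.ne_zero] at h0
    have h1 : ¬ IsUnit (p : ZMod π.q) := by
      intro hu
      have := (hu.map π.χ).ne_zero
      exact this h0
    rw [ZMod.isUnit_iff_coprime] at h1
    have h2 : p ∣ π.q := by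
      by_contra h3
      exact h1 ((Nat.Prime.coprime_iff_not_dvd hp').2 h3)
    exact Nat.le_of_dvd (Nat.pos_of_ne_zero (NeZero.ne π.q)) h2
  · have h2I : 0 < (2 + I : ℂ).im := by simp
    have h2I' : 1 < (2 + I : ℂ).re := by simp
    have h1 : analyticOrderAt L.num z ≠ ⊤ :=
      order_ne_top_of_ne (fun s hs => (L.diff s hs).1) h2I
        (Pool.Agent.H62.DL.num_ne L _ h2I' h2I) hz
    have h3 : analyticOrderAt L.den z = 0 := by
      rw [hden]
      exact analyticOrderAt_eq_zero.2 (Or.inr one_ne_zero)
    have h2 : meromorphicOrderAt L.den z = 0 := by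
      classical
      rw [hden, meromorphicOrderAt_const, if_neg one_ne_zero]
    refine ⟨?_, h1, ?_⟩
    · rw [h3]
      exact ENat.zero_ne_top
    · rw [h2, add_zero, hnum]

end Pool.Agent.H25.MZ
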