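import Pool.Agent.H25.HK.FG
import Pool.Agent.H23.GLH.Defs

/-!
# Zeros of L-functions: equal densities (d = 0) and multiplicities: definitions
-/

set_option autoImplicit false

open Complex MeasureTheory Set

namespace Pool.Agent.H25.MZ

open Pool.Agent.H25.DL Pool.Agent.H25.HK

variable {ι : Type} [Fintype ι]

/-! ### Part 1: `d = 0` -/

/-- the frequency of a tuple -/
noncomputable def fr (f : ι → Fac) (z : ι → ℕ) : ℝ := ∑ l, (f l).r * Real.log (z l)

/-- the coefficient of a tuple -/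
noncomputable def cz (f : ι → Fac) (z : ι → ℕ) : ℂ :=
  ∏ l, (f l).c (z l) * ((z l : ℕ) : ℂ) ^ (-(1 / 2 + (f l).τ * I : ℂ))

/-- the tuples of positive integers of frequency `ν` -/
def tup (f : ι → Fac) (ν : ℝ) : Set (ι → ℕ) := {z | (∀ l, 1 ≤ z l) ∧ fr f z = ν}

/-- the coefficient of the product at the frequency `ν` -/
noncomputable def co (f : ι → Fac) (ν : ℝ) : ℂ := ∑ᶠ z ∈ tup f ν, cz f z

/-- The properties of the inverse factor `Y` of the functional equation for `d = 0`. -/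
structure Ph0 (Y : ℂ → ℂ) (κ : ℂ) (B η t₀ : ℝ) : Prop where
  one_le : 1 ≤ t₀
  norm_κ : ‖κ‖ = 1
  diff : ∀ s : ℂ, t₀ ≤ s.im → DifferentiableAt ℂ Y s
  main : ∃ C : ℝ, ∀ t : ℝ, t₀ ≤ t →
    ‖Y (1 / 2 + t * I) - κ * cexp ((B * t + η * Real.log t : ℝ) * I)‖ ≤ C / t
  growth : ∀ b : ℝ, ∃ C : ℝ, 0 < C ∧ ∀ σ t : ℝ, 1 / 2 ≤ σ → σ ≤ b → t₀ ≤ t → ‖Y (σ + t * I)‖ ≤ C

/-- the approximation of `KK` -/
noncomputable def kA (f : ι → Fac) (κ : ℂ) (B η β : ℝ) (Z : Finset (ι → ℕ)) (u : ℝ) : ℂ :=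
  κ * cexp ((η * Real.log u : ℝ) * I) * ∑ z ∈ Z, cz f z *
    cexp (((B - fr f z) * u : ℝ) * I) * Real.exp (-((B - fr f z) * β) ^ 2 / 4)

/-- the approximation of `LL` -/
noncomputable def lA (f : ι → Fac) (β : ℝ) (Z : Finset (ι → ℕ)) (u : ℝ) : ℂ :=
  ∑ z ∈ Z, (starRingEnd ℂ) (cz f z) * cexp ((fr f z * u : ℝ) * I) *
    Real.exp (-(fr f z * β) ^ 2 / 4)

open scoped Classical in
/-- the coefficient of the product at `p` to the power of the minimal dilation `μ` -/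
noncomputable def pm (f : ι → Fac) (μ : ℝ) (p : ℕ) : ℂ :=
  ∑ l, if (f l).r = μ then (f l).c p * (p : ℂ) ^ (-((f l).τ * I : ℂ)) else 0

/-- many primes have a non-zero coefficient -/
def Many (L : LF) : Prop :=
  ¬ Summable (fun p : {p : ℕ // p.Prime ∧ ∑ j, L.h j p ≠ 0} => (1 : ℝ) / ((p : ℕ) : ℝ))

/-- `Λ` is a quotient `num / den` of an `LF` of degree `n` with many non-zero coefficients at primes,
on the upper half plane and up to isolated points -/
def Good2 (Λ : ℂ → ℂ) (n : ℕ) : Prop :=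
  ∃ L : LF, L.n = n ∧ Many L ∧ ∀ z : ℂ, 0 < z.im → analyticOrderAt L.den z ≠ ⊤ ∧
    analyticOrderAt L.num z ≠ ⊤ ∧
      meromorphicOrderAt Λ z + meromorphicOrderAt L.den z = meromorphicOrderAt L.num z

/-! ### Part 2: multiplicities -/

/-- the coefficients of `(1 - x) ^ (-w)` -/
noncomputable def bw (w : ℝ) (v : ℕ) : ℝ := ∏ i ∈ Finset.range v, (w + i) / (i + 1)

/-- the coefficients of `ζ(s) ^ w` -/
noncomputable def zw (w : ℝ) (n : ℕ) : ℝ :=
  if n = 0 then 0 else n.factorization.prod fun _ v => bw w v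

lemma bw_le {w : ℝ} (hw : |w| ≤ 1) (v : ℕ) : |bw w v| ≤ 1 := by
  unfold bw
  rw [Finset.abs_prod]
  refine Finset.prod_le_one (fun i _ => abs_nonneg _) fun i _ => ?_
  have h1 : (0 : ℝ) < i + 1 := by positivity
  rw [abs_div, abs_of_pos h1, div_le_one h1]
  have h2 := abs_le.1 hw
  have h3 : (0 : ℝ) ≤ i := Nat.cast_nonneg i
  rw [abs_le]
  constructor <;> linarith

lemma zw_le {w : ℝ} (hw : |w| ≤ 1) (n : ℕ) : |zw w n| ≤ 1 := by
  unfold zw
  split_ifs with h
  · simp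
  · unfold Finsupp.prod
    rw [Finset.abs_prod]
    exact Finset.prod_le_one (fun i _ => abs_nonneg _) fun i _ => bw_le hw _

lemma zw_zero (w : ℝ) : zw w 0 = 0 := if_pos rfl

lemma zw_one (w : ℝ) : zw w 1 = 1 := by
  unfold zw
  simp

lemma abs_inv_le (m : ℕ) : |1 / (m : ℝ)| ≤ 1 := by
  rcases Nat.eq_zero_or_pos m with rfl | hm
  · simp
  · have : (1 : ℝ) ≤ m := by exact_mod_cast hm
    rw [abs_of_nonneg (by positivity)]
    exact (div_le_one (by linarith)).2 this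

lemma abs_neg_inv_le (m : ℕ) : |(-(1 / (m : ℝ)))| ≤ 1 := by
  rw [abs_neg]
  exact abs_inv_le m

/-- one factor of the `m`-th root of the numerator -/
noncomputable def rP (m : ℕ) (a : DLF) (k : Fin a.L.n) : Fac where
  c n := a.L.h k n * ((zw (1 / (m : ℝ)) n : ℝ) : ℂ)
  r := a.r
  τ := a.τ
  c_zero := by simp [a.L.h_zero k]
  c_one := by simp [a.L.h_one k, zw_one]
  c_le n := by
    rw [norm_mul, Complex.norm_real, Real.norm_eq_abs]
    exact mul_le_one₀ (a.L.h_le k n) (abs_nonneg _) (zw_le (abs_inv_le m) n)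
  r_pos := a.r_pos

/-- one factor of the `m`-th root of the denominator -/
noncomputable def rQ (m : ℕ) (a : DLF) (k : Fin a.L.n) : Fac where
  c n := a.L.h k n * ((zw (-(1 / (m : ℝ))) n : ℝ) : ℂ)
  r := a.r
  τ := a.τ
  c_zero := by simp [a.L.h_zero k]
  c_one := by simp [a.L.h_one k, zw_one]
  c_le n := by
    rw [norm_mul, Complex.norm_real, Real.norm_eq_abs]
    exact mul_le_one₀ (a.L.h_le k n) (abs_nonneg _) (zw_le (abs_neg_inv_le m) n)
  r_pos := a.r_pos

/-- all factors of the `m`-th root of the quotient -/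
noncomputable def rf (F : Fam) (m : ℕ) : F.Ix → Fac
  | Sum.inl x => rP m (F.p x.1) x.2
  | Sum.inr x => rQ m (F.q x.1) x.2

/-- exceptional points: the order of the quotient is not a natural multiple of `m` -/
def ExcM (F : Fam) (m : ℕ) (z : ℂ) : Prop :=
  ∀ k : ℕ, analyticOrderAt F.N z ≠ analyticOrderAt F.M z + ((m * k : ℕ) : ℕ∞)

end Pool.Agent.H25.MZ
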