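import Pool.Agent.H25.MZ.DI2
import Pool.Agent.H48.DL.RE

/-!
# Equal densities: module RE0 (Dirichlet `L`-functions)
-/

set_option autoImplicit false

open Complex MeasureTheory Set Filter Topology

namespace Pool.Agent.H25.MZ

open Pool.Agent.H25.DL Pool.Agent.H25.HK Pool.Agent.H48.DL Pool.Agent.H23.GLH

/-- the coefficient of a family at the minimal dilation -/
lemma pm_fam (F : Fam) (μ : ℝ) {p : ℕ} (hp : p.Prime) :
    pm F.f μ p = (∑ i, open Classical in if (F.p i).r = μ then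
        (∑ k, (F.p i).L.h k p) * (p : ℂ) ^ (-((F.p i).τ * I : ℂ)) else 0) -
      ∑ j, open Classical in if (F.q j).r = μ then
        (∑ k, (F.q j).L.h k p) * (p : ℂ) ^ (-((F.q j).τ * I : ℂ)) else 0 := by
  classical
  unfold pm
  rw [Fintype.sum_sum_type, Fintype.sum_sigma, Fintype.sum_sigma, sub_eq_add_neg,
    ← Finset.sum_neg_distrib]
  congr 1
  · refine Finset.sum_congr rfl fun i _ => ?_
    change ∑ k : Fin (F.p i).L.n, (if (F.p i).r = μ then (F.p i).L.h k p *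
      (p : ℂ) ^ (-((F.p i).τ * I : ℂ)) else 0) = _
    split_ifs with h
    · rw [Finset.sum_mul]
    · simp
  · refine Finset.sum_congr rfl fun j _ => ?_
    change ∑ k : Fin (F.q j).L.n, (if (F.q j).r = μ then
      (((ArithmeticFunction.moebius p : ℤ) : ℂ) * (F.q j).L.h k p) *
      (p : ℂ) ^ (-((F.q j).τ * I : ℂ)) else 0) = _
    split_ifs with h
    · rw [Finset.sum_mul, ← Finset.sum_neg_distrib]
      refine Finset.sum_congr rfl fun k _ => ?_
      rw [ArithmeticFunction.moebius_apply_prime hp]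
      push_cast
      ring
    · simp

/-- a minimal dilation -/
lemma exists_min (k m : ℕ) (r : Fin k → ℝ) (ρ : Fin m → ℝ) (hk : 0 < k) (hr : ∀ i, 0 < r i)
    (hρ : ∀ j, 0 < ρ j) : ∃ μ : ℝ, 0 < μ ∧ (∀ i, μ ≤ r i) ∧ (∀ j, μ ≤ ρ j) ∧
      ((∃ i, r i = μ) ∨ ∃ j, ρ j = μ) := by
  have : Nonempty (Fin k ⊕ Fin m) := ⟨Sum.inl ⟨0, hk⟩⟩
  obtain ⟨x, hx⟩ := Finite.exists_min (Sum.elim r ρ)
  refine ⟨Sum.elim r ρ x, ?_, fun i => hx (Sum.inl i), fun j => hx (Sum.inr j), ?_⟩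
  · rcases x with i | j
    · exact hr i
    · exact hρ j
  · rcases x with i | j
    · exact Or.inl ⟨i, rfl⟩
    · exact Or.inr ⟨j, rfl⟩

lemma sum_subtype_ite {κ : Type} [Fintype κ] (r : κ → ℝ) (μ : ℝ) (g : κ → ℂ)
    [Fintype {i // r i = μ}] :
    ∑ i : {i // r i = μ}, g i = ∑ i, open Classical in if r i = μ then g i else 0 := by
  classical
  rw [← Finset.sum_filter]
  symm
  exact Finset.sum_subtype _ (fun i => by simp) _

/-- (RE0) -/
theorem re0 (hFI : T_FI0) (hDV : T_DV0) : T_RE0 := by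
  classical
  intro k m ψ r τ χ ρ σ hk hr hρ hd hne
  obtain ⟨μ, hμ, hrμ, hρμ, hex⟩ := exists_min k m r ρ hk hr hρ
  choose L hLn hLnum hLden hLh using di3
  let F : Fam :=
    { I := Fin k
      J := Fin m
      fI := inferInstance
      fJ := inferInstance
      p := fun i => ⟨L (ψ i), r i, τ i, hr i⟩
      q := fun j => ⟨L (χ j), ρ j, σ j, hρ j⟩ }
  have hFd : F.d = 0 := by
    change ∑ i, r i * ((L (ψ i)).n : ℝ) - ∑ j, ρ j * ((L (χ j)).n : ℝ) = _
    simp only [hLn, Nat.cast_one, mul_one]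
    rw [hd, sub_self]
  have hFr : ∀ l, μ ≤ (F.f l).r := by
    rintro (x | x)
    · exact hrμ x.1
    · exact hρμ x.1
  have hpm : ∀ p : ℕ, p.Prime → pm F.f μ p =
      (∑ i : {i // r i = μ}, (ψ i).χ (p : ZMod (ψ i).q) * (p : ℂ) ^ (-(τ i * I : ℂ))) -
        ∑ j : {j // ρ j = μ}, (χ j).χ (p : ZMod (χ j).q) * (p : ℂ) ^ (-(σ j * I : ℂ)) := by
    intro p hp
    rw [pm_fam F μ hp, sum_subtype_ite r μ
      (fun i => (ψ i).χ (p : ZMod (ψ i).q) * (p : ℂ) ^ (-(τ i * I : ℂ))),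
      sum_subtype_ite ρ μ (fun j => (χ j).χ (p : ZMod (χ j).q) * (p : ℂ) ^ (-(σ j * I : ℂ)))]
    congr 1
    · refine Finset.sum_congr rfl fun i _ => ?_
      change (if r i = μ then (∑ k, (L (ψ i)).h k p) * (p : ℂ) ^ (-(τ i * I : ℂ)) else 0) = _
      rw [hLh, if_neg hp.ne_zero]
    · refine Finset.sum_congr rfl fun j _ => ?_
      change (if ρ j = μ then (∑ k, (L (χ j)).h k p) * (p : ℂ) ^ (-(σ j * I : ℂ)) else 0) = _
      rw [hLh, if_neg hp.ne_zero]
  have hns := hDV {i // r i = μ} {j // ρ j = μ} (fun i => ψ i) (fun i => τ i) (fun j => χ j)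
    (fun j => σ j) (fun i j h => hne i j ⟨h.1, i.2.trans j.2.symm, h.2⟩) (by
      rcases hex with ⟨i, hi⟩ | ⟨j, hj⟩
      · exact ⟨Sum.inl ⟨i, hi⟩⟩
      · exact ⟨Sum.inr ⟨j, hj⟩⟩)
  obtain ⟨c, T₀, hc, h⟩ := hFI F μ _ hFd hμ hFr (fun p hp => ⟨hp.1, by
    rw [hpm p hp.1]
    exact hp.2⟩) hns
  obtain ⟨T₁, hT₁⟩ := exists_height r τ μ hμ hrμ
  obtain ⟨T₂, hT₂⟩ := exists_height ρ σ μ hμ hρμ
  refine ⟨c, max (max T₀ 0) (max T₁ T₂), hc, fun T W hT hW hWT => ?_⟩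
  have hT0 : 0 ≤ T := ((le_max_right _ _).trans (le_max_left _ _)).trans hT
  obtain ⟨Z, hZ, hz⟩ := h T W (((le_max_left _ _).trans (le_max_left _ _)).trans hT) hW hWT
  refine ⟨Z, hZ, fun z hzZ => ?_⟩
  obtain ⟨h1', h2, h3⟩ := hz z hzZ
  have h1 : T / 4 ≤ z.im := by linarith
  refine ⟨h1', h2, ?_⟩
  have hp : ∀ i, 0 < (wl (r i) (τ i) z).im :=
    hT₁ T (((le_max_left _ _).trans (le_max_right _ _)).trans hT) z h1
  have hq : ∀ j, 0 < (wl (ρ j) (σ j) z).im :=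
    hT₂ T (((le_max_right _ _).trans (le_max_right _ _)).trans hT) z h1
  have hN := order_N F z hp hq
  have hM := order_M F z hp hq
  have hone : ∀ w : ℂ, analyticOrderAt (fun _ : ℂ => (1 : ℂ)) w = 0 := fun w =>
    analyticOrderAt_eq_zero.2 (Or.inr one_ne_zero)
  have hN' : analyticOrderAt F.N z = ∑ i, analyticOrderAt (ψ i).L (wl (r i) (τ i) z) := by
    rw [hN]
    change (∑ i, analyticOrderAt (L (ψ i)).num (wl (r i) (τ i) z)) +
      ∑ j, analyticOrderAt (L (χ j)).den (wl (ρ j) (σ j) z) = _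
    simp only [hLnum, hLden, hone, Finset.sum_const_zero, add_zero]
  have hM' : analyticOrderAt F.M z = ∑ j, analyticOrderAt (χ j).L (wl (ρ j) (σ j) z) := by
    rw [hM]
    change (∑ i, analyticOrderAt (L (ψ i)).den (wl (r i) (τ i) z)) +
      ∑ j, analyticOrderAt (L (χ j)).num (wl (ρ j) (σ j) z) = _
    simp only [hLnum, hLden, hone, Finset.sum_const_zero, zero_add]
  have h4 : analyticOrderAt F.N z < analyticOrderAt F.M z := h3
  rw [hN', hM'] at h4
  exact h4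

end Pool.Agent.H25.MZ
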